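import Mathlib

set_option autoImplicit false

namespace Pool.Agent.R467.LT

open Set Metric

/-- LT-A: a path with distinct endpoints contains an injective path (arc) with the same endpoints. -/
def StmtA : Prop :=
  ∀ (X : Type) [MetricSpace X] (γ : ℝ → X), ContinuousOn γ (Icc 0 1) → γ 0 ≠ γ 1 →
    ∃ α : ℝ → X, ContinuousOn α (Icc 0 1) ∧ InjOn α (Icc 0 1) ∧ α 0 = γ 0 ∧ α 1 = γ 1 ∧
      α '' Icc 0 1 ⊆ γ '' Icc 0 1

/-- LT-B: in a compact metric space of bounded turning any two points are joined by a path whose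
diameter is at most `10 B` times their distance. -/
def StmtB : Prop :=
  ∀ (X : Type) [MetricSpace X] [CompactSpace X] (B : ℝ), 1 ≤ B →
    (∀ u v : X, ∃ E : Set X, IsCompact E ∧ IsConnected E ∧ u ∈ E ∧ v ∈ E ∧
      diam E ≤ B * dist u v) →
    ∀ u v : X, ∃ γ : Path u v, ∀ s t : unitInterval, dist (γ s) (γ t) ≤ 10 * B * dist u v

end Pool.Agent.R467.LT
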