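import Mathlib
import Pool.Agent.R467.LT.Stm

set_option autoImplicit false

namespace Pool.Agent.R467.LT

open Set Metric

namespace A

variable {X : Type} [MetricSpace X]

/-- The family of closed sets of parameters whose gaps are closed loops. -/
def Fam (γ : ℝ → X) : Set (Set ℝ) :=
  {A | IsClosed A ∧ A ⊆ Icc 0 1 ∧ (0 : ℝ) ∈ A ∧ (1 : ℝ) ∈ A ∧
    ∀ a ∈ A, ∀ b ∈ A, a < b → (∀ x ∈ A, ¬ (a < x ∧ x < b)) → γ a = γ b}

lemma fam_Icc (γ : ℝ → X) : Icc (0 : ℝ) 1 ∈ Fam γ := by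
  refine ⟨isClosed_Icc, subset_rfl, ⟨le_rfl, zero_le_one⟩, ⟨zero_le_one, le_rfl⟩, ?_⟩
  intro a ha b hb hab hx
  exfalso
  apply hx ((a + b) / 2)
  · constructor
    · linarith [ha.1, hb.1]
    · linarith [ha.2, hb.2]
  · constructor <;> linarith

lemma fam_chain (γ : ℝ → X) (hγ : Continuous γ) (c : Set (Set ℝ)) (hc : c ⊆ Fam γ)
    (hch : IsChain (· ⊆ ·) c) (hne : c.Nonempty) : ⋂₀ c ∈ Fam γ := by
  obtain ⟨A0, hA0⟩ := hne
  refine ⟨isClosed_sInter fun A hA => (hc hA).1, ?_, ?_, ?_, ?_⟩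
  · exact (sInter_subset_of_mem hA0).trans (hc hA0).2.1
  · intro A hA; exact (hc hA).2.2.1
  · intro A hA; exact (hc hA).2.2.2.1
  · intro a ha b hb hab hgap
    by_contra hne
    have hd : 0 < dist (γ a) (γ b) := dist_pos.2 hne
    obtain ⟨ε1, hε1, h1⟩ := Metric.continuous_iff.1 hγ a (dist (γ a) (γ b) / 2) (by linarith)
    obtain ⟨ε2, hε2, h2⟩ := Metric.continuous_iff.1 hγ b (dist (γ a) (γ b) / 2) (by linarith)
    obtain ⟨ε, hε, hεa, hεb, hεc⟩ : ∃ ε > 0, ε < ε1 ∧ ε < ε2 ∧ 2 * ε < b - a := by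
      have h3 : 0 < b - a := by linarith
      have h4 : 0 < min ε1 ε2 := lt_min hε1 hε2
      have h5 : 0 < min (min ε1 ε2) (b - a) := lt_min h4 h3
      have h6 := min_le_left (min ε1 ε2) (b - a)
      have h7 := min_le_right (min ε1 ε2) (b - a)
      have h8 := min_le_left ε1 ε2
      have h9 := min_le_right ε1 ε2
      refine ⟨min (min ε1 ε2) (b - a) / 3, by positivity, ?_, ?_, ?_⟩ <;> linarith
    haveI : Nonempty c := ⟨⟨A0, hA0⟩⟩
    have hcomp : IsCompact (Icc (a + ε) (b - ε)) := isCompact_Icc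
    obtain ⟨⟨A, hA⟩, hAe⟩ := hcomp.elim_directed_family_closed (fun A : c => (A : Set ℝ))
      (fun A => (hc A.2).1) (by
        rw [eq_empty_iff_forall_notMem]
        rintro x ⟨hx1, hx2⟩
        have hxA : x ∈ ⋂₀ c := by
          rw [sInter_eq_iInter]; exact hx2
        exact hgap x hxA ⟨by linarith [hx1.1], by linarith [hx1.2]⟩) (by
        intro A B
        rcases hch.total A.2 B.2 with h | h
        · exact ⟨A, subset_rfl, h⟩
        · exact ⟨B, h, subset_rfl⟩)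
    simp only at hAe
    have hAF := hc hA
    have haA : a ∈ A := ha A hA
    have hbA : b ∈ A := hb A hA
    have hAc : IsCompact A := isCompact_Icc.of_isClosed_subset hAF.1 hAF.2.1
    obtain ⟨a', ⟨ha'A, ha'⟩, ha'g⟩ := (hAc.inter_right (isClosed_Iic (a := a + ε))).exists_isGreatest
      ⟨a, haA, by simp only [mem_Iic]; linarith⟩
    obtain ⟨b', ⟨hb'A, hb'⟩, hb'l⟩ := (hAc.inter_right (isClosed_Ici (a := b - ε))).exists_isLeast
      ⟨b, hbA, by simp only [mem_Ici]; linarith⟩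
    have haa' : a ≤ a' := ha'g ⟨haA, by simp only [mem_Iic]; linarith⟩
    have hbb' : b' ≤ b := hb'l ⟨hbA, by simp only [mem_Ici]; linarith⟩
    simp only [mem_Iic] at ha'
    simp only [mem_Ici] at hb'
    have hkey : γ a' = γ b' := by
      apply hAF.2.2.2.2 a' ha'A b' hb'A (by linarith)
      rintro x hxA ⟨hx1, hx2⟩
      by_cases h3 : x ≤ a + ε
      · exact absurd (ha'g ⟨hxA, h3⟩) (not_le.2 hx1)
      · by_cases h4 : b - ε ≤ x
        · exact absurd (hb'l ⟨hxA, h4⟩) (not_le.2 hx2)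
        · push Not at h3 h4
          have : x ∈ Icc (a + ε) (b - ε) ∩ A := ⟨⟨h3.le, h4.le⟩, hxA⟩
          rw [hAe] at this
          exact this
    have e1 : dist (γ a') (γ a) < dist (γ a) (γ b) / 2 := by
      apply h1
      rw [Real.dist_eq, abs_of_nonneg (by linarith)]; linarith
    have e2 : dist (γ b') (γ b) < dist (γ a) (γ b) / 2 := by
      apply h2
      rw [Real.dist_eq, abs_sub_comm, abs_of_nonneg (by linarith)]; linarith
    have : dist (γ a) (γ b) ≤ dist (γ a) (γ a') + dist (γ b') (γ b) := by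
      rw [← hkey]; exact dist_triangle _ _ _
    rw [dist_comm (γ a) (γ a')] at this
    linarith


/-- existence of a closed set in the family without nontrivial closed loops -/
lemma exists_min (γ : ℝ → X) (hγ : Continuous γ) : ∃ A ∈ Fam γ,
    ∀ s ∈ A, ∀ t ∈ A, s < t → γ s = γ t → ∀ x ∈ A, ¬ (s < x ∧ x < t) := by
  obtain ⟨A, hA⟩ := zorn_superset (Fam γ) (by
    intro c hc hch
    rcases c.eq_empty_or_nonempty with rfl | hne
    · exact ⟨Icc 0 1, fam_Icc γ, by simp⟩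
    · exact ⟨⋂₀ c, fam_chain γ hγ c hc hch hne, fun s hs => sInter_subset_of_mem hs⟩)
  have hAF : A ∈ Fam γ := hA.1
  refine ⟨A, hAF, ?_⟩
  intro s hs t ht hst hγst
  have hs01 := hAF.2.1 hs
  have ht01 := hAF.2.1 ht
  have hB : A \ Ioo s t ∈ Fam γ := by
    refine ⟨hAF.1.sdiff isOpen_Ioo, diff_subset.trans hAF.2.1,
      ⟨hAF.2.2.1, fun h => absurd h.1 (not_lt.2 hs01.1)⟩,
      ⟨hAF.2.2.2.1, fun h => absurd h.2 (not_lt.2 ht01.2)⟩, ?_⟩
    rintro a ⟨haA, ha⟩ b ⟨hbA, hb⟩ hab hgap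
    by_cases hx : ∀ x ∈ A, ¬ (a < x ∧ x < b)
    · exact hAF.2.2.2.2 a haA b hbA hab hx
    · push Not at hx
      obtain ⟨x, hxA, hax, hxb⟩ := hx
      have hxst : x ∈ Ioo s t := by
        by_contra h
        exact hgap x ⟨hxA, h⟩ ⟨hax, hxb⟩
      have has : a = s := by
        rcases lt_trichotomy a s with h | h | h
        · exfalso
          exact hgap s ⟨hs, fun h' => lt_irrefl _ h'.1⟩ ⟨h, hxst.1.trans hxb⟩
        · exact h
        · exfalso; exact ha ⟨h, hax.trans hxst.2⟩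
      have hbt : b = t := by
        rcases lt_trichotomy b t with h | h | h
        · exfalso; exact hb ⟨hxst.1.trans hxb, h⟩
        · exact h
        · exfalso
          exact hgap t ⟨ht, fun h' => lt_irrefl _ h'.2⟩ ⟨hax.trans hxst.2, h⟩
      rw [has, hbt, hγst]
  have hAB : A ⊆ A \ Ioo s t := hA.2 hB diff_subset
  intro x hx hxst
  exact (hAB hx).2 hxst

/-- the path without nontrivial loops -/
lemma exists_beta (γ : ℝ → X) (hγ : Continuous γ) : ∃ β : ℝ → X, ContinuousOn β (Icc 0 1) ∧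
    β 0 = γ 0 ∧ β 1 = γ 1 ∧ β '' Icc 0 1 ⊆ γ '' Icc 0 1 ∧
    ∀ s ∈ Icc (0 : ℝ) 1, ∀ t ∈ Icc (0 : ℝ) 1, s < t → β s = β t → ∀ r ∈ Icc s t, β r = β s := by
  obtain ⟨A, hAF, hM⟩ := exists_min γ hγ
  obtain ⟨hAc, hA01, h0, h1, hgap⟩ := hAF
  have hAcomp : IsCompact A := isCompact_Icc.of_isClosed_subset hAc hA01
  -- the projection
  have hpi : ∀ t : ℝ, 0 ≤ t → ∃ p, IsGreatest (A ∩ Iic t) p := fun t ht =>
    (hAcomp.inter_right isClosed_Iic).exists_isGreatest ⟨0, h0, ht⟩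
  have hsi : ∀ t : ℝ, t ≤ 1 → ∃ p, IsLeast (A ∩ Ici t) p := fun t ht =>
    (hAcomp.inter_right isClosed_Ici).exists_isLeast ⟨1, h1, ht⟩
  classical
  let π : ℝ → ℝ := fun t => if h : 0 ≤ t then Classical.choose (hpi t h) else 0
  have hπ : ∀ t : ℝ, 0 ≤ t → IsGreatest (A ∩ Iic t) (π t) := by
    intro t ht
    have := Classical.choose_spec (hpi t ht)
    simpa [π, ht] using this
  have hπA : ∀ t : ℝ, 0 ≤ t → π t ∈ A := fun t ht => (hπ t ht).1.1
  have hπle : ∀ t : ℝ, 0 ≤ t → π t ≤ t := fun t ht => (hπ t ht).1.2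
  have hπmax : ∀ t : ℝ, 0 ≤ t → ∀ x ∈ A, x ≤ t → x ≤ π t := fun t ht x hx hxt =>
    (hπ t ht).2 ⟨hx, hxt⟩
  have hπself : ∀ t ∈ A, π t = t := fun t ht =>
    le_antisymm (hπle t (hA01 ht).1) (hπmax t (hA01 ht).1 t ht le_rfl)
  have hπmono : ∀ s t : ℝ, 0 ≤ s → s ≤ t → π s ≤ π t := fun s t hs hst =>
    hπmax t (hs.trans hst) _ (hπA s hs) ((hπle s hs).trans hst)
  refine ⟨fun t => γ (π t), ?_, by simp only [hπself 0 h0], by simp only [hπself 1 h1], ?_, ?_⟩
  · -- continuity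
    have huc := isCompact_Icc.uniformContinuousOn_of_continuous
      (hγ.continuousOn (s := Icc (0 : ℝ) 1))
    rw [Metric.uniformContinuousOn_iff] at huc
    have key : ∀ ε > 0, ∃ δ > 0, ∀ s ∈ Icc (0 : ℝ) 1, ∀ t ∈ Icc (0 : ℝ) 1, s ≤ t → t - s < δ →
        dist (γ (π s)) (γ (π t)) < ε := by
      intro ε hε
      obtain ⟨δ, hδ, hd⟩ := huc ε hε
      refine ⟨δ, hδ, ?_⟩
      intro s hs t ht hst hts
      obtain ⟨s', ⟨hs'A, hs's⟩, hs'l⟩ := hsi s hs.2
      simp only [mem_Ici] at hs's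
      by_cases hlt : t < s'
      · -- no points of A in [s,t]
        have : π s = π t := by
          apply le_antisymm (hπmono s t hs.1 hst)
          apply hπmax s hs.1 _ (hπA t ht.1)
          by_contra hcon
          push Not at hcon
          have := hs'l ⟨hπA t ht.1, hcon.le⟩
          have h2 := hπle t ht.1
          linarith
        rw [this, dist_self]; exact hε
      · push Not at hlt
        have hs'01 := hA01 hs'A
        have h2 : s' ≤ π t := hπmax t ht.1 s' hs'A hlt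
        have h3 := hπle t ht.1
        have h4 : γ (π s) = γ s' := by
          by_cases hsA : s ∈ A
          · have : s' ≤ s := hs'l ⟨hsA, mem_Ici.2 le_rfl⟩
            have h5 : s' = s := le_antisymm this hs's
            rw [h5, hπself s hsA]
          · have h5 : π s < s := lt_of_le_of_ne (hπle s hs.1) (fun h => hsA (h ▸ hπA s hs.1))
            have h6 : s < s' := lt_of_le_of_ne hs's (fun h => hsA (h ▸ hs'A))
            apply hgap _ (hπA s hs.1) _ hs'A (h5.trans h6)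
            rintro x hxA ⟨hx1, hx2⟩
            rcases le_total x s with h7 | h7
            · exact absurd (hπmax s hs.1 x hxA h7) (not_le.2 hx1)
            · exact absurd (hs'l ⟨hxA, h7⟩) (not_le.2 hx2)
        rw [h4]
        apply hd s' hs'01 (π t) (hA01 (hπA t ht.1))
        rw [Real.dist_eq, abs_sub_comm, abs_of_nonneg (by linarith)]
        linarith
    rw [Metric.continuousOn_iff]
    intro b hb ε hε
    obtain ⟨δ, hδ, hd⟩ := key ε hε
    refine ⟨δ, hδ, fun a ha hab => ?_⟩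
    rw [Real.dist_eq] at hab
    rcases le_total a b with h | h
    · apply hd a ha b hb h
      rw [abs_sub_comm, abs_of_nonneg (by linarith)] at hab
      exact hab
    · rw [dist_comm]
      apply hd b hb a ha h
      rw [abs_of_nonneg (by linarith)] at hab
      exact hab
  · rintro _ ⟨t, ht, rfl⟩
    exact ⟨π t, hA01 (hπA t ht.1), rfl⟩
  · intro s hs t ht hst hβ r hr
    simp only at hβ ⊢
    have h2 := hπmono s r hs.1 hr.1
    have h3 := hπmono r t (hs.1.trans hr.1) hr.2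
    rcases h2.eq_or_lt with h4 | h4
    · rw [h4]
    rcases h3.eq_or_lt with h5 | h5
    · rw [h5, hβ]
    exact absurd ⟨h4, h5⟩ (hM _ (hπA s hs.1) _ (hπA t ht.1) (h4.trans h5) hβ _
      (hπA r (hs.1.trans hr.1)))

/-- the distance to the initial piece of the path -/
noncomputable def hh (β : ℝ → X) (q s : ℝ) : ℝ := min 1 (infDist (β s) (β '' Icc 0 q))

/-- its running supremum -/
noncomputable def MM (β : ℝ → X) (q t : ℝ) : ℝ :=
  sSup ((fun u => hh β q (t * u)) '' Icc (0 : ℝ) 1)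

lemma hh_nonneg (β : ℝ → X) (q s : ℝ) : 0 ≤ hh β q s := le_min zero_le_one infDist_nonneg

lemma hh_le_one (β : ℝ → X) (q s : ℝ) : hh β q s ≤ 1 := min_le_left _ _

lemma hh_cont {β : ℝ → X} (hβ : Continuous β) (q : ℝ) : Continuous (hh β q) :=
  continuous_const.min ((continuous_infDist_pt _).comp hβ)

lemma MM_bdd (β : ℝ → X) (q t : ℝ) : BddAbove ((fun u => hh β q (t * u)) '' Icc (0 : ℝ) 1) :=
  ⟨1, by rintro _ ⟨u, -, rfl⟩; exact hh_le_one _ _ _⟩

lemma MM_ne (β : ℝ → X) (q t : ℝ) : ((fun u => hh β q (t * u)) '' Icc (0 : ℝ) 1).Nonempty :=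
  ⟨_, 0, ⟨le_rfl, zero_le_one⟩, rfl⟩

lemma le_MM (β : ℝ → X) (q : ℝ) {r t : ℝ} (hr : 0 ≤ r) (hrt : r ≤ t) : hh β q r ≤ MM β q t := by
  apply le_csSup (MM_bdd β q t)
  rcases (hr.trans hrt).eq_or_lt with h | h
  · refine ⟨0, ⟨le_rfl, zero_le_one⟩, ?_⟩
    have : r = 0 := le_antisymm (h ▸ hrt) hr
    simp only [mul_zero, this]
  · refine ⟨r / t, ⟨by positivity, (div_le_one h).2 hrt⟩, ?_⟩
    have : t * (r / t) = r := by field_simp
    simp only [this]

lemma MM_le (β : ℝ → X) (q : ℝ) {t c : ℝ} (ht : 0 ≤ t)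
    (h : ∀ r, 0 ≤ r → r ≤ t → hh β q r ≤ c) : MM β q t ≤ c := by
  apply csSup_le (MM_ne β q t)
  rintro _ ⟨u, hu, rfl⟩
  exact h _ (mul_nonneg ht hu.1) (mul_le_of_le_one_right ht hu.2)

lemma MM_nonneg (β : ℝ → X) (q t : ℝ) : 0 ≤ MM β q t :=
  Real.sSup_nonneg (by rintro _ ⟨u, -, rfl⟩; exact hh_nonneg _ _ _)

lemma MM_le_one (β : ℝ → X) (q t : ℝ) : MM β q t ≤ 1 :=
  csSup_le (MM_ne β q t) (by rintro _ ⟨u, -, rfl⟩; exact hh_le_one _ _ _)

lemma MM_cont {β : ℝ → X} (hβ : Continuous β) (q : ℝ) : Continuous (MM β q) := by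
  have : Continuous (fun p : ℝ × ℝ => hh β q (p.1 * p.2)) :=
    (hh_cont hβ q).comp (continuous_fst.mul continuous_snd)
  exact isCompact_Icc.continuous_sSup (f := fun t u => hh β q (t * u)) this

/-- the monotone function with the same fibres as the path -/
noncomputable def ph (β : ℝ → X) (t : ℝ) : ℝ :=
  ∑' q : ℚ, (1 / 2 : ℝ) ^ Encodable.encode q * MM β q t

lemma ph_term_le (β : ℝ → X) (q : ℚ) (t : ℝ) :
    ‖(1 / 2 : ℝ) ^ Encodable.encode q * MM β q t‖ ≤ (1 / 2 : ℝ) ^ Encodable.encode q := by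
  rw [Real.norm_of_nonneg (mul_nonneg (by positivity) (MM_nonneg _ _ _))]
  exact mul_le_of_le_one_right (by positivity) (MM_le_one _ _ _)

lemma ph_summable (β : ℝ → X) (t : ℝ) :
    Summable fun q : ℚ => (1 / 2 : ℝ) ^ Encodable.encode q * MM β q t :=
  Summable.of_norm_bounded (summable_geometric_two_encode (ι := ℚ)) (fun q => ph_term_le β q t)

lemma ph_cont {β : ℝ → X} (hβ : Continuous β) : Continuous (ph β) :=
  continuous_tsum (fun q => continuous_const.mul (MM_cont hβ q))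
    (summable_geometric_two_encode (ι := ℚ)) (fun q t => ph_term_le β q t)

lemma ph_eq {β : ℝ → X} {s t : ℝ} (hs : 0 ≤ s) (hst : s ≤ t)
    (h : ∀ r ∈ Icc s t, β r = β s) : ph β s = ph β t := by
  have key : ∀ q : ℝ, MM β q s = MM β q t := by
    intro q
    apply le_antisymm
    · exact MM_le β q hs (fun r h0 h1 => le_MM β q h0 (h1.trans hst))
    · refine MM_le β q (hs.trans hst) (fun r h0 h1 => ?_)
      rcases le_total r s with h2 | h2
      · exact le_MM β q h0 h2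
      · have : hh β q r = hh β q s := by unfold hh; rw [h r ⟨h2, h1⟩]
        rw [this]; exact le_MM β q hs le_rfl
  unfold ph
  simp only [key]

lemma ph_lt {β : ℝ → X} (hβ : Continuous β)
    (hstar : ∀ s ∈ Icc (0 : ℝ) 1, ∀ t ∈ Icc (0 : ℝ) 1, s < t → β s = β t →
      ∀ r ∈ Icc s t, β r = β s) {s t : ℝ} (hs : s ∈ Icc (0 : ℝ) 1) (ht : t ∈ Icc (0 : ℝ) 1)
    (hst : s < t) (hne : β s ≠ β t) : ph β s < ph β t := by
  -- choice of a rational
  have hopen : IsOpen {r | β r ≠ β t} := isOpen_ne_fun hβ continuous_const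
  obtain ⟨ε, hε, hball⟩ := Metric.isOpen_iff.1 hopen s hne
  obtain ⟨q, hq1, hq2⟩ := exists_rat_btwn (show s < min t (s + ε) from lt_min hst (by linarith))
  have hqt : (q : ℝ) < t := hq2.trans_le (min_le_left _ _)
  have hqe : (q : ℝ) < s + ε := hq2.trans_le (min_le_right _ _)
  have hqne : β q ≠ β t := by
    apply hball
    rw [Metric.mem_ball, Real.dist_eq, abs_of_nonneg (by linarith)]
    linarith
  have h1 : MM β q s ≤ 0 := by
    apply MM_le β q hs.1
    intro r h0 hr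
    have hmem : β r ∈ β '' Icc 0 (q : ℝ) := ⟨r, ⟨h0, by linarith⟩, rfl⟩
    unfold hh
    rw [infDist_zero_of_mem hmem]
    exact min_le_right _ _
  have h2 : 0 < hh β q t := by
    have hcl : IsClosed (β '' Icc 0 (q : ℝ)) := (isCompact_Icc.image hβ).isClosed
    have hnon : (β '' Icc 0 (q : ℝ)).Nonempty := ⟨_, 0, ⟨le_rfl, by linarith [hs.1]⟩, rfl⟩
    have hnm : β t ∉ β '' Icc 0 (q : ℝ) := by
      rintro ⟨r, hr, hrt⟩
      have hr1 : r < t := hr.2.trans_lt hqt
      have := hstar r ⟨hr.1, by linarith [ht.2]⟩ t ht hr1 hrt q ⟨hr.2, hqt.le⟩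
      exact hqne (this.trans hrt)
    exact lt_min one_pos ((hcl.notMem_iff_infDist_pos hnon).1 hnm)
  have h3 : MM β q s < MM β q t := lt_of_le_of_lt h1 (h2.trans_le (le_MM β q ht.1 le_rfl))
  unfold ph
  refine Summable.tsum_lt_tsum (i := q) ?_ ?_ (ph_summable β s) (ph_summable β t)
  · intro p
    apply mul_le_mul_of_nonneg_left _ (by positivity)
    exact MM_le β p hs.1 (fun r h0 h1 => le_MM β p h0 (h1.trans hst.le))
  · exact mul_lt_mul_of_pos_left h3 (by positivity)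

/-- reparametrization -/
lemma exists_alpha (β : ℝ → X) (hβ : Continuous β) (hne : β 0 ≠ β 1)
    (hstar : ∀ s ∈ Icc (0 : ℝ) 1, ∀ t ∈ Icc (0 : ℝ) 1, s < t → β s = β t →
      ∀ r ∈ Icc s t, β r = β s) :
    ∃ α : ℝ → X, ContinuousOn α (Icc 0 1) ∧ InjOn α (Icc 0 1) ∧ α 0 = β 0 ∧ α 1 = β 1 ∧
      α '' Icc 0 1 ⊆ β '' Icc 0 1 := by
  have h01 : (0 : ℝ) ∈ Icc (0 : ℝ) 1 := ⟨le_rfl, zero_le_one⟩
  have h11 : (1 : ℝ) ∈ Icc (0 : ℝ) 1 := ⟨zero_le_one, le_rfl⟩
  have hiff : ∀ s ∈ Icc (0 : ℝ) 1, ∀ t ∈ Icc (0 : ℝ) 1, (ph β s = ph β t ↔ β s = β t) := by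
    have key : ∀ s ∈ Icc (0 : ℝ) 1, ∀ t ∈ Icc (0 : ℝ) 1, s < t →
        (ph β s = ph β t ↔ β s = β t) := by
      intro s hs t ht hst
      constructor
      · intro h
        by_contra hc
        exact (ph_lt hβ hstar hs ht hst hc).ne h
      · intro h
        exact ph_eq hs.1 hst.le (hstar s hs t ht hst h)
    intro s hs t ht
    rcases lt_trichotomy s t with h | h | h
    · exact key s hs t ht h
    · simp [h]
    · rw [eq_comm, key t ht s hs h, eq_comm]
  have hlt : ph β 0 < ph β 1 := ph_lt hβ hstar h01 h11 one_pos hne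
  set a := ph β 0 with ha
  set b := ph β 1 with hb
  have hivt : ∀ u ∈ Icc (0 : ℝ) 1, ∃ t ∈ Icc (0 : ℝ) 1, ph β t = a + u * (b - a) := by
    intro u hu
    have := intermediate_value_Icc (zero_le_one' ℝ) (ph_cont hβ).continuousOn
      (show a + u * (b - a) ∈ Icc (ph β 0) (ph β 1) from ⟨by nlinarith [hu.1], by nlinarith [hu.2]⟩)
    exact this
  classical
  let g : ℝ → ℝ := fun u => if h : u ∈ Icc (0 : ℝ) 1 then Classical.choose (hivt u h) else 0
  have hg : ∀ u ∈ Icc (0 : ℝ) 1, g u ∈ Icc (0 : ℝ) 1 ∧ ph β (g u) = a + u * (b - a) := by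
    intro u hu
    have h := Classical.choose_spec (hivt u hu)
    have e : g u = Classical.choose (hivt u hu) := by simp only [g]; rw [dif_pos hu]
    rw [e]; exact h
  refine ⟨fun u => β (g u), ?_, ?_, ?_, ?_, ?_⟩
  · rw [continuousOn_iff_isClosed]
    intro F hF
    refine ⟨(fun t => (ph β t - a) / (b - a)) '' (β ⁻¹' F ∩ Icc 0 1), ?_, ?_⟩
    · apply IsCompact.isClosed
      apply IsCompact.image
      · exact isCompact_Icc.inter_left (hF.preimage hβ)
      · exact ((ph_cont hβ).sub continuous_const).div_const _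
    · ext u
      constructor
      · rintro ⟨hu1, hu2⟩
        refine ⟨⟨g u, ⟨hu1, (hg u hu2).1⟩, ?_⟩, hu2⟩
        simp only
        rw [(hg u hu2).2]
        have : b - a ≠ 0 := (sub_pos.2 hlt).ne'
        field_simp
        ring
      · rintro ⟨⟨t, ⟨ht1, ht2⟩, htu⟩, hu2⟩
        refine ⟨?_, hu2⟩
        simp only at htu
        have hba : b - a ≠ 0 := (sub_pos.2 hlt).ne'
        have h1 : ph β t = a + u * (b - a) := by
          rw [← htu]; field_simp; ring
        have h2 : β (g u) = β t := by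
          rw [← hiff _ (hg u hu2).1 _ ht2, (hg u hu2).2, h1]
        show β (g u) ∈ F
        rw [h2]; exact ht1
  · intro u hu v hv huv
    simp only at huv
    rw [← hiff _ (hg u hu).1 _ (hg v hv).1, (hg u hu).2, (hg v hv).2] at huv
    have hba : b - a ≠ 0 := (sub_pos.2 hlt).ne'
    have : u * (b - a) = v * (b - a) := by linarith
    exact mul_right_cancel₀ hba this
  · show β (g 0) = β 0
    rw [← hiff _ (hg 0 h01).1 _ h01, (hg 0 h01).2]
    simp [ha]
  · show β (g 1) = β 1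
    rw [← hiff _ (hg 1 h11).1 _ h11, (hg 1 h11).2]
    simp [hb]
  · rintro _ ⟨u, hu, rfl⟩
    exact ⟨g u, (hg u hu).1, rfl⟩

end A

theorem stmtA : StmtA := by
  intro X _ γ hγ hne
  have h01 : (0 : ℝ) ∈ Icc (0 : ℝ) 1 := ⟨le_rfl, zero_le_one⟩
  have h11 : (1 : ℝ) ∈ Icc (0 : ℝ) 1 := ⟨zero_le_one, le_rfl⟩
  -- clamp
  let γ' : ℝ → X := fun t => γ (projIcc (0 : ℝ) 1 zero_le_one t)
  have hγ' : Continuous γ' :=
    (continuousOn_iff_continuous_restrict.1 hγ).comp continuous_projIcc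
  have hγe : ∀ t ∈ Icc (0 : ℝ) 1, γ' t = γ t := by
    intro t ht; simp only [γ']; rw [projIcc_of_mem zero_le_one ht]
  obtain ⟨β, hβ, hb0, hb1, hbim, hstar⟩ := A.exists_beta γ' hγ'
  let β' : ℝ → X := fun t => β (projIcc (0 : ℝ) 1 zero_le_one t)
  have hβ' : Continuous β' :=
    (continuousOn_iff_continuous_restrict.1 hβ).comp continuous_projIcc
  have hβe : ∀ t ∈ Icc (0 : ℝ) 1, β' t = β t := by
    intro t ht; simp only [β']; rw [projIcc_of_mem zero_le_one ht]
  have e0 : β' 0 = γ 0 := by rw [hβe 0 h01, hb0, hγe 0 h01]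
  have e1 : β' 1 = γ 1 := by rw [hβe 1 h11, hb1, hγe 1 h11]
  obtain ⟨α, h1, h2, h3, h4, h5⟩ := A.exists_alpha β' hβ' (by rw [e0, e1]; exact hne) (by
    intro s hs t ht hst hβst r hr
    have hr01 : r ∈ Icc (0 : ℝ) 1 := ⟨hs.1.trans hr.1, hr.2.trans ht.2⟩
    rw [hβe s hs, hβe t ht] at hβst
    rw [hβe s hs, hβe r hr01]
    exact hstar s hs t ht hst hβst r hr)
  refine ⟨α, h1, h2, h3.trans e0, h4.trans e1, ?_⟩
  intro x hx
  obtain ⟨t, ht, rfl⟩ := h5 hx
  rw [hβe t ht]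
  obtain ⟨s, hs, hs2⟩ := hbim ⟨t, ht, rfl⟩
  exact ⟨s, hs, by rw [← hγe s hs, hs2]⟩

end Pool.Agent.R467.LT
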