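import Pool.Agent.R467.LT.Stm

/-! LT-B: bounded turning implies that points are joined by paths of controlled diameter. -/

set_option autoImplicit false
set_option linter.unusedSectionVars false
set_option linter.unusedVariables false

namespace Pool.Agent.R467.LT

open Set Metric Filter Topology

/-! ### Chains -/

lemma chain_exists {X : Type} [MetricSpace X] {E : Set X} (hE : IsPreconnected E)
    {x y : X} (hx : x ∈ E) (hy : y ∈ E) {ε : ℝ} (hε : 0 < ε) :
    ∃ (n : ℕ) (z : ℕ → X), z 0 = x ∧ z n = y ∧ (∀ i < n, dist (z i) (z (i + 1)) ≤ ε) ∧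
      ∀ i ≤ n, z i ∈ E := by
  set S : Set X := {w | ∃ (n : ℕ) (z : ℕ → X), z 0 = x ∧ z n = w ∧
    (∀ i < n, dist (z i) (z (i + 1)) ≤ ε) ∧ ∀ i ≤ n, z i ∈ E} with hS
  by_contra hcon
  have hyS : y ∉ S := hcon
  have hxS : x ∈ S := ⟨0, fun _ => x, rfl, rfl, by simp, by simp [hx]⟩
  have step : ∀ w ∈ S, ∀ w' ∈ E, dist w w' ≤ ε → w' ∈ S := by
    rintro w ⟨n, z, h0, hn, h1, h2⟩ w' hw' hd
    refine ⟨n + 1, fun i => if i ≤ n then z i else w', ?_, ?_, ?_, ?_⟩
    · simp [h0]
    · simp
    · intro i hi
      by_cases hin : i < n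
      · have e1 : i ≤ n := hin.le
        have e2 : i + 1 ≤ n := hin
        simp only [e1, e2, if_true]
        exact h1 i hin
      · have e1 : i = n := by omega
        subst e1
        simp only [le_refl, if_true]
        rw [if_neg (by omega), hn]
        exact hd
    · intro i hi
      by_cases hin : i ≤ n
      · simp only [hin, if_true]
        exact h2 i hin
      · simp only [hin, if_false]
        exact hw'
  have hU : IsOpen (⋃ w ∈ S, ball w (ε / 2)) := isOpen_biUnion fun w _ => isOpen_ball
  have hV : IsOpen (⋃ w ∈ E \ S, ball w (ε / 2)) := isOpen_biUnion fun w _ => isOpen_ball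
  have hcov : E ⊆ (⋃ w ∈ S, ball w (ε / 2)) ∪ (⋃ w ∈ E \ S, ball w (ε / 2)) := by
    intro p hp
    by_cases hpS : p ∈ S
    · left
      exact mem_biUnion hpS (mem_ball_self (by linarith))
    · right
      exact mem_biUnion (show p ∈ E \ S from ⟨hp, hpS⟩) (mem_ball_self (by linarith))
  obtain ⟨p, hpE, hpU, hpV⟩ := hE _ _ hU hV hcov
    ⟨x, hx, mem_biUnion hxS (mem_ball_self (by linarith))⟩
    ⟨y, hy, mem_biUnion (show y ∈ E \ S from ⟨hy, hyS⟩) (mem_ball_self (by linarith))⟩
  rw [mem_iUnion₂] at hpU hpV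
  obtain ⟨w, hw, hpw⟩ := hpU
  obtain ⟨w', hw', hpw'⟩ := hpV
  apply hw'.2
  apply step w hw w' hw'.1
  rw [mem_ball] at hpw hpw'
  have := dist_triangle_left w w' p
  linarith

lemma chain_exists' {X : Type} [MetricSpace X] [CompactSpace X] (B : ℝ) (hB : 1 ≤ B)
    (h : ∀ u v : X, ∃ E : Set X, IsCompact E ∧ IsConnected E ∧ u ∈ E ∧ v ∈ E ∧
      diam E ≤ B * dist u v) (x y : X) :
    ∃ (n : ℕ) (z : ℕ → X), z 0 = x ∧ z n = y ∧
      (∀ i < n, dist (z i) (z (i + 1)) ≤ dist x y / 4) ∧
      ∀ i ≤ n, dist (z i) x ≤ B * dist x y := by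
  by_cases hxy : x = y
  · subst hxy
    exact ⟨0, fun _ => x, rfl, rfl, by simp, by simp⟩
  · obtain ⟨E, hEc, hEconn, hxE, hyE, hd⟩ := h x y
    have hpos : 0 < dist x y / 4 := by
      have := dist_pos.2 hxy
      linarith
    obtain ⟨n, z, h0, hn, h1, h2⟩ := chain_exists hEconn.isPreconnected hxE hyE hpos
    exact ⟨n, z, h0, hn, h1, fun i hi =>
      (dist_le_diam_of_mem hEc.isBounded (h2 i hi) hxE).trans hd⟩

/-! ### Concatenation -/

section
variable {X : Type} {F : Type} [NormedAddCommGroup F] [NormedSpace ℝ F] (ι : X → F)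

/-- concatenation along a chain -/
noncomputable def conc (P : (x y : X) → Path (ι x) (ι y)) (z : ℕ → X) :
    (n : ℕ) → Path (ι (z 0)) (ι (z n))
  | 0 => Path.refl _
  | n + 1 => (conc P z n).trans (P (z n) (z (n + 1)))

lemma conc_dist (P Q : (x y : X) → Path (ι x) (ι y)) (z : ℕ → X) (δ : ℝ) (hδ : 0 ≤ δ) (n : ℕ)
    (h : ∀ i < n, ∀ t, dist (P (z i) (z (i + 1)) t) (Q (z i) (z (i + 1)) t) ≤ δ) (t : unitInterval) :
    dist (conc ι P z n t) (conc ι Q z n t) ≤ δ := by
  induction n generalizing t with
  | zero => simpa [conc] using hδ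
  | succ n ih =>
    simp only [conc, Path.trans_apply]
    split_ifs with ht
    · exact ih (fun i hi => h i (by omega)) _
    · exact h n (by omega) _

lemma conc_mem (P : (x y : X) → Path (ι x) (ι y)) (z : ℕ → X) (S : Set F) (n : ℕ)
    (h0 : ι (z 0) ∈ S)
    (h : ∀ i < n, ∀ t, P (z i) (z (i + 1)) t ∈ S) (t : unitInterval) :
    conc ι P z n t ∈ S := by
  induction n generalizing t with
  | zero => simpa [conc] using h0
  | succ n ih =>
    simp only [conc, Path.trans_apply]
    split_ifs with ht
    · exact ih (fun i hi => h i (by omega)) _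
    · exact h n (by omega) _

/-- straight segment -/
noncomputable def seg (a b : F) : Path a b where
  toFun t := AffineMap.lineMap a b (t : ℝ)
  continuous_toFun := by
    have : Continuous fun s : ℝ => AffineMap.lineMap a b s := AffineMap.lineMap_continuous
    exact this.comp continuous_subtype_val
  source' := by simp
  target' := by simp

lemma seg_mem (a b : F) (S : Set F) (hS : Convex ℝ S) (ha : a ∈ S) (hb : b ∈ S)
    (t : unitInterval) : seg a b t ∈ S := by
  have : seg a b t = AffineMap.lineMap a b (t : ℝ) := rfl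
  rw [this]
  exact hS.lineMap_mem ha hb t.2

/-- iterated refinement of the segment -/
noncomputable def Gam (n : X → X → ℕ) (z : X → X → ℕ → X) (h0 : ∀ x y, z x y 0 = x)
    (hn : ∀ x y, z x y (n x y) = y) : ℕ → (x y : X) → Path (ι x) (ι y)
  | 0, x, y => seg (ι x) (ι y)
  | k + 1, x, y => (conc ι (Gam n z h0 hn k) (z x y) (n x y)).cast
      (by rw [h0]) (by rw [hn])

end

section
variable {X : Type} [MetricSpace X] {F : Type} [NormedAddCommGroup F] [NormedSpace ℝ F]
  (ι : X → F) (hι : Isometry ι) (B : ℝ) (hB : 1 ≤ B)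
  (n : X → X → ℕ) (z : X → X → ℕ → X) (h0 : ∀ x y, z x y 0 = x)
  (hn : ∀ x y, z x y (n x y) = y)
  (h1 : ∀ x y, ∀ i < n x y, dist (z x y i) (z x y (i + 1)) ≤ dist x y / 4)
  (h2 : ∀ x y, ∀ i ≤ n x y, dist (z x y i) x ≤ B * dist x y)

include hι hB h1 h2

lemma gam_zero_dist (x y : X) (t : unitInterval) :
    dist (Gam ι n z h0 hn 0 x y t) (ι x) ≤ dist x y := by
  have : Gam ι n z h0 hn 0 x y t ∈ closedBall (ι x) (dist x y) := by
    apply seg_mem _ _ _ (convex_closedBall _ _)
    · exact mem_closedBall_self dist_nonneg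
    · rw [mem_closedBall, hι.dist_eq, dist_comm]
  exact this

lemma gam_near (k : ℕ) (x y : X) (t : unitInterval) :
    ∃ p : X, dist (Gam ι n z h0 hn k x y t) (ι p) ≤ dist x y / 4 ^ k := by
  induction k generalizing x y t with
  | zero =>
    exact ⟨x, by simpa using gam_zero_dist ι hι B hB n z h0 hn h1 h2 x y t⟩
  | succ k ih =>
    have : Gam ι n z h0 hn (k + 1) x y t ∈
        {q : F | ∃ p : X, dist q (ι p) ≤ dist x y / 4 ^ (k + 1)} := by
      simp only [Gam, Path.cast_coe]
      apply conc_mem
      · exact ⟨z x y 0, by rw [dist_self]; positivity⟩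
      · intro i hi s
        obtain ⟨p, hp⟩ := ih (z x y i) (z x y (i + 1)) s
        refine ⟨p, hp.trans ?_⟩
        rw [pow_succ', ← div_div]
        exact div_le_div_of_nonneg_right (h1 x y i hi) (by positivity)
    exact this

lemma gam_step (k : ℕ) (x y : X) (t : unitInterval) :
    dist (Gam ι n z h0 hn k x y t) (Gam ι n z h0 hn (k + 1) x y t) ≤
      (B + 1) * dist x y / 4 ^ k := by
  induction k generalizing x y t with
  | zero =>
    have e1 := gam_zero_dist ι hι B hB n z h0 hn h1 h2 x y t
    have e2 : Gam ι n z h0 hn 1 x y t ∈ closedBall (ι x) (B * dist x y) := by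
      show Gam ι n z h0 hn (0 + 1) x y t ∈ closedBall (ι x) (B * dist x y)
      rw [Gam, Path.cast_coe]
      apply conc_mem
      · rw [h0]
        exact mem_closedBall_self (by positivity)
      · intro i hi s
        apply seg_mem _ _ _ (convex_closedBall _ _)
        · rw [mem_closedBall, hι.dist_eq]
          exact h2 x y i hi.le
        · rw [mem_closedBall, hι.dist_eq]
          exact h2 x y (i + 1) hi
    rw [mem_closedBall] at e2
    have := dist_triangle_right (Gam ι n z h0 hn 0 x y t) (Gam ι n z h0 hn (0 + 1) x y t) (ι x)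
    simp only [pow_zero, div_one]
    simp only [zero_add] at this ⊢
    linarith
  | succ k ih =>
    have e : ∀ k, (Gam ι n z h0 hn (k + 1) x y : unitInterval → F) =
        conc ι (Gam ι n z h0 hn k) (z x y) (n x y) := fun k => by
      rw [Gam, Path.cast_coe]
    rw [e (k + 1), e k]
    apply conc_dist
    · positivity
    · intro i hi s
      refine (ih (z x y i) (z x y (i + 1)) s).trans ?_
      rw [pow_succ', ← div_div]
      apply div_le_div_of_nonneg_right _ (by positivity)
      rw [mul_div_assoc]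
      exact mul_le_mul_of_nonneg_left (h1 x y i hi) (by linarith)

end

theorem stmtB : StmtB := by
  intro X _ _ B hB h u v
  choose n z h0 hn h1 h2 using fun x y => chain_exists' B hB h x y
  have hι := kuratowskiEmbedding.isometry X
  set ι := kuratowskiEmbedding X with hιd
  set G : ℕ → C(unitInterval, lp (fun _ : ℕ => ℝ) ⊤) := fun k => (Gam ι n z h0 hn k u v).toContinuousMap
    with hG
  have hd0 : 0 ≤ (B + 1) * dist u v := by positivity
  have hstep : ∀ k, dist (G k) (G (k + 1)) ≤ (B + 1) * dist u v * (1 / 4) ^ k := by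
    intro k
    rw [ContinuousMap.dist_le (by positivity)]
    intro t
    have := gam_step ι hι B hB n z h0 hn h1 h2 k u v t
    rw [one_div, inv_pow, ← div_eq_mul_inv]
    exact this
  have hc : CauchySeq G := cauchySeq_of_le_geometric (1 / 4) _ (by norm_num) hstep
  obtain ⟨g, hg⟩ := cauchySeq_tendsto_of_complete hc
  have hg0 : dist (G 0) g ≤ 4 / 3 * ((B + 1) * dist u v) := by
    have := dist_le_of_le_geometric_of_tendsto₀ (1 / 4) _ (by norm_num) hstep hg
    calc dist (G 0) g ≤ _ := this
      _ = _ := by ring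
  have hgt : ∀ t, Tendsto (fun k => G k t) atTop (𝓝 (g t)) := fun t =>
    ((ContinuousEvalConst.continuous_eval_const t).tendsto g).comp hg
  have hrange : ∀ t, ∃ p : X, ι p = g t := by
    intro t
    have hcl : IsClosed (range ι) := (isCompact_range hι.continuous).isClosed
    have : g t ∈ closure (range ι) := by
      rw [Metric.mem_closure_iff]
      intro ε hε
      have h3 : Tendsto (fun k : ℕ => dist u v / 4 ^ k) atTop (𝓝 0) := by
        have := (tendsto_pow_atTop_nhds_zero_of_lt_one (r := (1 / 4 : ℝ)) (by norm_num)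
          (by norm_num)).const_mul (dist u v)
        rw [mul_zero] at this
        refine this.congr fun k => ?_
        rw [one_div, inv_pow, ← div_eq_mul_inv]
      have h4 : ∀ᶠ k in atTop, dist u v / 4 ^ k < ε / 2 :=
        h3.eventually_lt_const (by linarith)
      have h5 : ∀ᶠ k in atTop, dist (G k t) (g t) < ε / 2 :=
        (Metric.tendsto_nhds.1 (hgt t)) (ε / 2) (by linarith)
      obtain ⟨k, hk4, hk5⟩ := (h4.and h5).exists
      obtain ⟨p, hp⟩ := gam_near ι hι B hB n z h0 hn h1 h2 k u v t
      refine ⟨ι p, mem_range_self p, ?_⟩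
      have h6 : dist (g t) (ι p) ≤ dist (G k t) (g t) + dist (G k t) (ι p) :=
        dist_triangle_left _ _ _
      have h7 : dist (G k t) (ι p) ≤ dist u v / 4 ^ k := hp
      linarith
    rw [hcl.closure_eq] at this
    exact this
  choose p hp using hrange
  have hpc : Continuous p := by
    rw [hι.isEmbedding.continuous_iff]
    have : ι ∘ p = g := funext hp
    rw [this]
    exact g.continuous
  have hend : ∀ t : unitInterval, ∀ w : X, (∀ k, G k t = ι w) → p t = w := by
    intro t w hw
    apply hι.injective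
    rw [hp]
    have h3 := hgt t
    have h4 : (fun k => G k t) = fun _ => ι w := funext hw
    rw [h4] at h3
    exact tendsto_nhds_unique h3 tendsto_const_nhds
  have hdist : ∀ t, dist (p t) u ≤ 11 / 3 * B * dist u v := by
    intro t
    rw [← hι.dist_eq, hp]
    have e1 := gam_zero_dist ι hι B hB n z h0 hn h1 h2 u v t
    have e2 : dist (G 0 t) (g t) ≤ 4 / 3 * ((B + 1) * dist u v) :=
      (ContinuousMap.dist_apply_le_dist t).trans hg0
    have e3 : dist (g t) (ι u) ≤ dist (G 0 t) (g t) + dist (G 0 t) (ι u) :=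
      dist_triangle_left _ _ _
    have e4 : dist (G 0 t) (ι u) ≤ dist u v := e1
    have e5 : dist u v ≤ B * dist u v := by
      nlinarith [dist_nonneg (x := u) (y := v)]
    nlinarith
  refine ⟨⟨⟨p, hpc⟩, ?_, ?_⟩, ?_⟩
  · apply hend
    intro k
    exact (Gam ι n z h0 hn k u v).source
  · apply hend
    intro k
    exact (Gam ι n z h0 hn k u v).target
  · intro s t
    show dist (p s) (p t) ≤ 10 * B * dist u v
    have h3 := dist_triangle_right (p s) (p t) u
    have h4 := hdist s
    have h5 := hdist t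
    have h6 : 0 ≤ B * dist u v := by positivity
    nlinarith

end Pool.Agent.R467.LT
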