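import Mathlib

set_option autoImplicit false

namespace Pool.Agent.R467.LT

open Set Metric

/-- `A` is a Jordan arc with endpoints `x` and `y`: some homeomorphism from `[0,1]` onto `A` takes
`0` to `x` and `1` to `y`. -/
def IsJordanArc {X : Type} [MetricSpace X] (A : Set X) (x y : X) : Prop :=
  ∃ h : unitInterval ≃ₜ A, (h 0 : X) = x ∧ (h 1 : X) = y

/-- A metric tree: a compact, connected, locally connected metric space with more than one point in
which any two distinct points are the endpoints of a unique Jordan arc. -/
structure IsMetricTree (X : Type) [MetricSpace X] : Prop where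
  compact : CompactSpace X
  connected : ConnectedSpace X
  locallyConnected : LocallyConnectedSpace X
  nontrivial : Nontrivial X
  arc : ∀ x y : X, x ≠ y → ∃! A : Set X, IsJordanArc A x y

/-- `X` is of bounded turning: for some `B ≥ 1` any two points `u, v` lie in a compact connected
set of diameter at most `B * dist u v`. -/
def BoundedTurning (X : Type) [MetricSpace X] : Prop :=
  ∃ B : ℝ, 1 ≤ B ∧ ∀ u v : X, ∃ E : Set X, IsCompact E ∧ IsConnected E ∧ u ∈ E ∧ v ∈ E ∧
    diam E ≤ B * dist u v

/-- `x` and `y` are joined by a `δ`-chain of points of `A` (for `x ∈ A`). -/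
def ChainJoined {X : Type} [MetricSpace X] (A : Set X) (δ : ℝ) (x y : X) : Prop :=
  Relation.ReflTransGen (fun p q => p ∈ A ∧ q ∈ A ∧ dist p q ≤ δ) x y

/-- Lipschitz light maps: `f` is `C`-Lipschitz and for every bounded `W` of positive diameter every
`diam W`-component of `f ⁻¹' W` has diameter at most `C * diam W`. -/
def LipschitzLight {X Y : Type} [MetricSpace X] [MetricSpace Y] (f : X → Y) : Prop :=
  ∃ C : ℝ, 1 ≤ C ∧ (∀ x y, dist (f x) (f y) ≤ C * dist x y) ∧
    ∀ W : Set Y, Bornology.IsBounded W → 0 < diam W → ∀ x ∈ f ⁻¹' W,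
      diam {y | ChainJoined (f ⁻¹' W) (diam W) x y} ≤ C * diam W

end Pool.Agent.R467.LT
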