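import Pool.Agent.R467.LT.M

set_option autoImplicit false

namespace Pool.Agent.R467.LTT

open Pool.Agent.R467.LT

open Set Metric Filter Topology

variable {X : Type} [MetricSpace X] {C : ℝ}

theorem ee_pos {E : ℝ} (hE : 0 < E) (l : ℕ) : 0 < ee E l := by unfold ee; positivity

theorem ee_zero (E : ℝ) : ee E 0 = E := by unfold ee; simp

theorem ee_succ (E : ℝ) (l : ℕ) : ee E (l + 1) = ee E l / 100 := by
  unfold ee; rw [pow_succ]; field_simp

theorem ee_tendsto (E : ℝ) : Tendsto (ee E) atTop (𝓝 0) := by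
  have h : Tendsto (fun l : ℕ => E * (1 / 100 : ℝ) ^ l) atTop (𝓝 (E * 0)) :=
    (tendsto_pow_atTop_nhds_zero_of_lt_one (by norm_num) (by norm_num)).const_mul E
  rw [mul_zero] at h
  refine h.congr fun l => ?_
  unfold ee
  rw [one_div, inv_pow]
  rfl

/-- the limit function -/
theorem exists_limit [CompactSpace X] (T : Tr X C) (hC : 0 < C) {E : ℝ}
    (hE : ∀ x y : X, R x y < E) (hE0 : 0 < E) (r : X) :
    ∃ f : X → ℝ, ∀ x, Tendsto (fun K => fK E r K x) (hyperfilter ℕ : Filter ℕ) (𝓝 (f x)) := by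
  have h : ∀ x, ∃ c, Tendsto (fun K => fK E r K x) (hyperfilter ℕ : Filter ℕ) (𝓝 c) := by
    intro x
    have hK : IsCompact (Icc (-E) E) := isCompact_Icc
    have h1 : ((hyperfilter ℕ).map (fun K => fK E r K x) : Filter ℝ) ≤ 𝓟 (Icc (-E) E) := by
      rw [le_principal_iff, Ultrafilter.coe_map, mem_map]
      exact Filter.univ_mem' fun K => abs_le.mp (fK_bd T hC hE hE0 K r x)
    obtain ⟨c, -, hc⟩ := hK.ultrafilter_le_nhds _ h1
    exact ⟨c, hc⟩
  choose f hf using h
  exact ⟨f, hf⟩

theorem ee_tendsto_hyper (E : ℝ) : Tendsto (ee E) (hyperfilter ℕ : Filter ℕ) (𝓝 0) :=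
  (ee_tendsto E).mono_left (by rw [← Nat.cofinite_eq_atTop]; exact hyperfilter_le_cofinite)

theorem lim_lip [CompactSpace X] (T : Tr X C) (hC : 0 < C) {E : ℝ}
    (hE : ∀ x y : X, R x y < E) (hE0 : 0 < E) (r : X) {f : X → ℝ}
    (hf : ∀ x, Tendsto (fun K => fK E r K x) (hyperfilter ℕ : Filter ℕ) (𝓝 (f x)))
    (x y : X) (hy : y ∈ seg r x) : |f y - f x| ≤ 240 * R y x := by
  have h1 : Tendsto (fun K => |fK E r K y - fK E r K x|) (hyperfilter ℕ : Filter ℕ)
      (𝓝 |f y - f x|) := ((hf y).sub (hf x)).abs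
  have h2 : Tendsto (fun K => 240 * (R y x + ee E K)) (hyperfilter ℕ : Filter ℕ)
      (𝓝 (240 * (R y x + 0))) := ((ee_tendsto_hyper E).const_add _).const_mul _
  rw [add_zero] at h2
  exact le_of_tendsto_of_tendsto h1 h2
    (Eventually.of_forall fun K => fK_lip T hC hE hE0 K r x y hy)

theorem lim_osc [CompactSpace X] (T : Tr X C) (hC : 0 < C) {E : ℝ}
    (hE : ∀ x y : X, R x y < E) (hE0 : 0 < E) (r : X) {f : X → ℝ}
    (hf : ∀ x, Tendsto (fun K => fK E r K x) (hyperfilter ℕ : Filter ℕ) (𝓝 (f x)))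
    (l : ℕ) (x y : X) (hy : y ∈ seg r x) (h : 4 * ee E l ≤ R y x) :
    ∃ z ∈ seg y x, ∃ z' ∈ seg y x, (1/20) * ee E l ≤ |f z - f z'| := by
  by_contra hcon
  push Not at hcon
  have hel := ee_pos hE0 l
  set S := seg y x with hS
  have hSr : S ⊆ seg r x := seg_mono T hy (right_mem T r x)
  set δ := ee E l / (48000 * C) with hδ
  have hδ0 : 0 < δ := by positivity
  obtain ⟨t, ht1, ht2, ht3⟩ := (seg_compact T y x).finite_cover_balls hδ0
  have ev1 : ∀ᶠ K in (hyperfilter ℕ : Filter ℕ), ∀ w ∈ t, |fK E r K w - f w| < ee E l / 200 := by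
    rw [Filter.eventually_all_finite ht2]
    intro w _
    have h1 := (hf w)
    rw [Metric.tendsto_nhds] at h1
    have := h1 (ee E l / 200) (by positivity)
    filter_upwards [this] with K hK
    rwa [Real.dist_eq] at hK
  have ev2 : ∀ᶠ K in (hyperfilter ℕ : Filter ℕ), ee E K < ee E l / 48000 :=
    (ee_tendsto_hyper E).eventually_lt_const (by positivity)
  have ev3 : ∀ᶠ K in (hyperfilter ℕ : Filter ℕ), l ≤ K := by
    have h1 : ∀ᶠ K in (atTop : Filter ℕ), l ≤ K := eventually_ge_atTop l
    exact h1.filter_mono (by rw [← Nat.cofinite_eq_atTop]; exact hyperfilter_le_cofinite)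
  obtain ⟨K, hK1, hK2, hK3⟩ := (ev1.and (ev2.and ev3)).exists
  obtain ⟨z, hz, z', hz', hzz⟩ := fK_osc T hC hE hE0 K l hK3 r x y hy h
  have near : ∀ z ∈ S, ∃ w ∈ t, |fK E r K z - f w| ≤ ee E l * (3/200) := by
    intro z hz
    have h1 := ht3 hz
    simp only [mem_iUnion, mem_ball] at h1
    obtain ⟨w, hw, hd⟩ := h1
    refine ⟨w, hw, ?_⟩
    have h2 := hK1 w hw
    have hwS := ht1 hw
    have h3 : R z w ≤ ee E l / 48000 := by
      have h4 := R_le T z w hC.le
      have h5 : C * dist z w ≤ C * δ := mul_le_mul_of_nonneg_left hd.le hC.le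
      have h6 : C * δ = ee E l / 48000 := by rw [hδ]; field_simp
      linarith
    have h7 : |fK E r K z - fK E r K w| ≤ 240 * (R z w + ee E K) := by
      rcases seg_total T (hSr hz) (hSr hwS) with h8 | h8
      · exact fK_lip T hC hE hE0 K r w z h8
      · rw [abs_sub_comm, R_comm T]
        exact fK_lip T hC hE hE0 K r z w h8
    have h8 := abs_sub_le (fK E r K z) (fK E r K w) (f w)
    linarith
  obtain ⟨w, hw, h1⟩ := near z hz
  obtain ⟨w', hw', h2⟩ := near z' hz'
  have h3 := hcon w (ht1 hw) w' (ht1 hw')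
  rw [abs_le] at h1 h2
  rw [abs_lt] at h3
  rcases le_abs.mp hzz with h4 | h4 <;> linarith [h1.1, h1.2, h2.1, h2.2, h3.1, h3.2]

theorem main_tr [CompactSpace X] (T : Tr X C) (hC : 1 ≤ C) (r : X) :
    ∃ f : X → ℝ, LipschitzLight f := by
  have hC0 : 0 < C := by linarith
  obtain ⟨E, hE0, hE⟩ : ∃ E : ℝ, 0 < E ∧ ∀ x y : X, R x y < E := by
    refine ⟨diam (univ : Set X) + 1, by have := diam_nonneg (s := (univ : Set X)); linarith, ?_⟩
    intro x y
    have h1 : R x y ≤ diam (univ : Set X) := diam_mono (subset_univ _) isCompact_univ.isBounded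
    linarith
  obtain ⟨f, hf⟩ := exists_limit T hC0 hE hE0 r
  have hlip : ∀ x y, |f x - f y| ≤ 480 * C * dist x y := by
    intro x y
    obtain ⟨m, m1, m2, m3⟩ := meet T r x y
    have a1 := lim_lip T hC0 hE hE0 r hf x m m1
    have a2 := lim_lip T hC0 hE hE0 r hf y m m2
    have a3 : R m x ≤ R x y := R_mono T m3 (left_mem x y)
    have a4 : R m y ≤ R x y := R_mono T m3 (right_mem T x y)
    have a5 := R_le T x y hC0.le
    rw [abs_le] at a1 a2 ⊢
    constructor <;> linarith [a1.1, a1.2, a2.1, a2.2]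
  set L : ℝ := 480 * C with hL
  have hL1 : 1 ≤ L := by rw [hL]; linarith
  set M : ℝ := 16000 * (2 * L * C + 1) with hM
  have hLC : 0 ≤ L * C := by positivity
  have hM1 : 1 ≤ M := by rw [hM]; linarith
  refine ⟨f, 2 * M + L, by linarith, ?_, ?_⟩
  · intro x y
    rw [Real.dist_eq]
    have := hlip x y
    have h2 : 0 ≤ M * dist x y := by positivity
    linarith
  · intro W hWb hW x hx
    set w := diam W with hw
    -- every point of the segment is close to a point of the preimage
    have hseg : ∀ y, ChainJoined (f ⁻¹' W) w x y → y ∈ f ⁻¹' W ∧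
        ∀ z ∈ seg x y, ∃ q ∈ f ⁻¹' W, dist z q ≤ C * w := by
      intro y hy
      induction hy with
      | refl =>
        refine ⟨hx, fun z hz => ⟨x, hx, ?_⟩⟩
        rw [seg_self] at hz
        rw [mem_singleton_iff.mp hz, dist_self]
        positivity
      | @tail b c _ h1 ih =>
        refine ⟨h1.2.1, fun z hz => ?_⟩
        rcases seg_union T x b c hz with h2 | h2
        · exact ih.2 z h2
        · refine ⟨b, h1.1, ?_⟩
          have h3 : dist z b ≤ R b c :=
            dist_le_diam_of_mem (seg_compact T b c).isBounded h2 (left_mem b c)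
          have h4 := R_le T b c hC0.le
          have h5 : C * dist b c ≤ C * w := mul_le_mul_of_nonneg_left h1.2.2 hC0.le
          linarith
    have hvar : ∀ y, ChainJoined (f ⁻¹' W) w x y → ∀ z ∈ seg x y, ∀ z' ∈ seg x y,
        |f z - f z'| ≤ (2 * L * C + 1) * w := by
      intro y hy z hz z' hz'
      obtain ⟨q, hq, hd⟩ := (hseg y hy).2 z hz
      obtain ⟨q', hq', hd'⟩ := (hseg y hy).2 z' hz'
      have h1 := hlip z q
      have h2 := hlip z' q'
      have h3 : |f q - f q'| ≤ w := by
        rw [← Real.dist_eq]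
        exact dist_le_diam_of_mem hWb hq hq'
      have h4 : L * dist z q ≤ L * (C * w) := mul_le_mul_of_nonneg_left hd (by linarith)
      have h5 : L * dist z' q' ≤ L * (C * w) := mul_le_mul_of_nonneg_left hd' (by linarith)
      rw [abs_le] at h1 h2 h3 ⊢
      constructor <;> nlinarith [h1.1, h1.2, h2.1, h2.2, h3.1, h3.2]
    have hvert : ∀ y, ChainJoined (f ⁻¹' W) w x y → ∀ m p, m ∈ seg r p → m ∈ seg x y →
        p ∈ seg x y → R m p ≤ 8000 * ((2 * L * C + 1) * w) := by
      intro y hy m p hmp hm hp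
      have hbig : 0 ≤ (2 * L * C + 1) * w := by positivity
      rcases eq_or_lt_of_le (R_nonneg m p) with h0 | h0
      · rw [← h0]; positivity
      · classical
        have hex : ∃ l, 4 * ee E l ≤ R m p := by
          have h1 := (ee_tendsto E).eventually_lt_const (show (0:ℝ) < R m p / 4 by positivity)
          obtain ⟨l, hl⟩ := h1.exists
          exact ⟨l, by linarith⟩
        have h1 := Nat.find_spec hex
        set l' := Nat.find hex with hl'
        have h2 : l' ≠ 0 := by
          intro h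
          rw [h, ee_zero] at h1
          have := hE m p
          linarith
        obtain ⟨l, hl⟩ : ∃ l, l' = l + 1 := ⟨l' - 1, by omega⟩
        have h3 : R m p < 4 * ee E l := by
          by_contra hc
          exact Nat.find_min hex (m := l) (by omega) (not_lt.mp hc)
        rw [hl] at h1
        obtain ⟨z, hz, z', hz', hzz⟩ := lim_osc T hC0 hE hE0 r hf (l + 1) p m hmp h1
        have hsub : seg m p ⊆ seg x y := seg_mono T hm hp
        have h4 := hvar y hy z (hsub hz) z' (hsub hz')
        rw [ee_succ] at hzz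
        linarith
    have hdist : ∀ y, ChainJoined (f ⁻¹' W) w x y → dist x y ≤ M * w := by
      intro y hy
      obtain ⟨m, m1, m2, m3⟩ := meet T r x y
      have h1 := hvert y hy m x m1 m3 (left_mem x y)
      have h2 := hvert y hy m y m2 m3 (right_mem T x y)
      have h3 := R_tri T x m y
      have h4 := dist_le_R T x y
      rw [R_comm T x m] at h3
      have h5 : M * w = 16000 * ((2 * L * C + 1) * w) := by rw [hM]; ring
      linarith
    apply diam_le_of_forall_dist_le (by positivity)
    intro y hy y' hy'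
    have h1 := hdist y hy
    have h2 := hdist y' hy'
    have h3 := dist_triangle_left y y' x
    have h4 : 0 ≤ L * w := by positivity
    nlinarith

end Pool.Agent.R467.LTT
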