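import Pool.Agent.R467.LT.Stm
import Pool.Agent.R467.LT.Defs

set_option autoImplicit false

namespace Pool.Agent.R467.LTT

open Pool.Agent.R467.LT

open Set Metric

variable {X : Type} [MetricSpace X]

theorem arc_of_inj {γ : ℝ → X} (hc : ContinuousOn γ (Icc 0 1)) (hi : InjOn γ (Icc 0 1)) :
    IsJordanArc (γ '' Icc 0 1) (γ 0) (γ 1) := by
  let f : unitInterval → (γ '' Icc (0:ℝ) 1) := fun t => ⟨γ t, t, t.2, rfl⟩
  have hf : Continuous f := Continuous.subtype_mk (continuousOn_iff_continuous_domRestrict.mp hc) _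
  have hb : Function.Bijective f := by
    constructor
    · intro s t h
      exact Subtype.ext (hi s.2 t.2 (congrArg Subtype.val h))
    · rintro ⟨_, t, ht, rfl⟩
      exact ⟨⟨t, ht⟩, rfl⟩
  have hE : Continuous (Equiv.ofBijective f hb) := hf
  exact ⟨hE.homeoOfEquivCompactToT2, rfl, rfl⟩

theorem param_of_arc {A : Set X} {x y : X} (h : IsJordanArc A x y) :
    ∃ γ : ℝ → X, Continuous γ ∧ InjOn γ (Icc 0 1) ∧ γ 0 = x ∧ γ 1 = y ∧ γ '' Icc 0 1 = A := by
  obtain ⟨h, h0, h1⟩ := h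
  refine ⟨fun t => (h (projIcc 0 1 zero_le_one t) : X), ?_, ?_, ?_, ?_, ?_⟩
  · exact continuous_subtype_val.comp (h.continuous.comp continuous_projIcc)
  · intro s hs t ht hst
    have h2 := h.injective (Subtype.ext hst)
    rw [projIcc_of_mem zero_le_one hs, projIcc_of_mem zero_le_one ht] at h2
    exact congrArg Subtype.val h2
  · show (h (projIcc 0 1 zero_le_one 0) : X) = x
    rw [projIcc_left]; exact h0
  · show (h (projIcc 0 1 zero_le_one 1) : X) = y
    rw [projIcc_right]; exact h1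
  · ext z
    constructor
    · rintro ⟨t, ht, rfl⟩
      exact Subtype.coe_prop _
    · intro hz
      obtain ⟨t, ht⟩ := h.surjective ⟨z, hz⟩
      refine ⟨t, t.2, ?_⟩
      show (h (projIcc 0 1 zero_le_one (t : ℝ)) : X) = z
      rw [projIcc_val, ht]

/-- the segment (arc) between two points -/
def seg (x y : X) : Set X := {z | z = x ∨ ∃ A, IsJordanArc A x y ∧ z ∈ A}

theorem not_arc_self (A : Set X) (x : X) : ¬ IsJordanArc A x x := by
  rintro ⟨h, h0, h1⟩
  have : h 0 = h 1 := Subtype.ext (h0.trans h1.symm)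
  exact zero_ne_one (h.injective this)

theorem seg_self (x : X) : seg x x = {x} := by
  ext z
  constructor
  · rintro (h | ⟨A, hA, -⟩)
    · exact h
    · exact absurd hA (not_arc_self A x)
  · intro h
    exact Or.inl h

/-- the standing hypotheses on the space -/
structure Tr (X : Type) [MetricSpace X] (C : ℝ) : Prop where
  hA : StmtA
  arc : ∀ x y : X, x ≠ y → ∃! A : Set X, IsJordanArc A x y
  bt : ∀ u v : X, ∃ γ : Path u v, ∀ s t : unitInterval, dist (γ s) (γ t) ≤ C * dist u v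

variable {C : ℝ}

theorem seg_eq (T : Tr X C) {A : Set X} {x y : X} (h : IsJordanArc A x y) : seg x y = A := by
  have hxy : x ≠ y := by
    rintro rfl
    exact not_arc_self A x h
  ext z
  constructor
  · rintro (hz | ⟨A', hA', hz⟩)
    · obtain ⟨g, g0, g1⟩ := h
      rw [hz, ← g0]
      exact Subtype.coe_prop _
    · rw [← (T.arc x y hxy).unique hA' h]
      exact hz
  · intro hz
    exact Or.inr ⟨A, h, hz⟩

theorem seg_sub_joined (T : Tr X C) {P : Set X} {x y : X} (h : JoinedIn P x y) : seg x y ⊆ P := by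
  by_cases hxy : x = y
  · subst hxy
    rw [seg_self]
    rintro z rfl
    exact h.source_mem
  · obtain ⟨γ, hγ⟩ := h
    obtain ⟨α, a1, a2, a3, a4, a5⟩ := T.hA X γ.extend γ.continuous_extend.continuousOn
      (by rw [γ.extend_zero, γ.extend_one]; exact hxy)
    rw [γ.extend_zero] at a3
    rw [γ.extend_one] at a4
    have h1 := arc_of_inj a1 a2
    rw [a3, a4] at h1
    rw [seg_eq T h1]
    refine a5.trans ?_
    rintro z ⟨t, ht, rfl⟩
    rw [γ.extend_apply ht]
    exact hγ _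

theorem joined_image {γ : ℝ → X} (hγ : Continuous γ) {s t : ℝ} (hst : s ≤ t) :
    JoinedIn (γ '' Icc s t) (γ s) (γ t) := by
  have h : IsPathConnected (γ '' Icc s t) :=
    ((convex_Icc s t).isPathConnected ⟨s, left_mem_Icc.mpr hst⟩).image hγ
  exact h.joinedIn _ ⟨s, left_mem_Icc.mpr hst, rfl⟩ _ ⟨t, right_mem_Icc.mpr hst, rfl⟩

theorem seg_param (T : Tr X C) (x y : X) : ∃ γ : ℝ → X, Continuous γ ∧ γ 0 = x ∧ γ 1 = y ∧
    (∀ s t, 0 ≤ s → s ≤ t → t ≤ 1 → seg (γ s) (γ t) = γ '' Icc s t) ∧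
    (x ≠ y → InjOn γ (Icc 0 1)) := by
  by_cases hxy : x = y
  · subst hxy
    refine ⟨fun _ => x, continuous_const, rfl, rfl, ?_, fun h => absurd rfl h⟩
    intro s t hs hst ht
    rw [seg_self]
    ext z
    constructor
    · intro hz
      exact ⟨s, left_mem_Icc.mpr hst, hz.symm⟩
    · rintro ⟨_, _, rfl⟩
      rfl
  · obtain ⟨A, hA, -⟩ := T.arc x y hxy
    obtain ⟨γ, g1, g2, g3, g4, g5⟩ := param_of_arc hA
    refine ⟨γ, g1, g3, g4, ?_, fun _ => g2⟩
    intro s t hs hst ht
    apply Subset.antisymm (seg_sub_joined T (joined_image g1 hst))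
    rintro z ⟨u, hu, rfl⟩
    have hseg : seg x y = γ '' Icc 0 1 := by rw [g5]; exact seg_eq T hA
    -- the segment between γ s and γ t is path connected
    have hj : JoinedIn (seg (γ s) (γ t)) (γ s) (γ t) := by
      by_cases he : γ s = γ t
      · rw [← he]
        exact JoinedIn.refl (Or.inl rfl)
      · obtain ⟨A', hA', -⟩ := T.arc _ _ he
        obtain ⟨β, b1, b2, b3, b4, b5⟩ := param_of_arc hA'
        rw [seg_eq T hA', ← b5]
        have := joined_image b1 (zero_le_one (α := ℝ))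
        rw [b3, b4] at this
        exact this
    have h0 : JoinedIn (γ '' Icc 0 s ∪ seg (γ s) (γ t) ∪ γ '' Icc t 1) x y := by
      have j1 := joined_image g1 hs
      have j2 := joined_image g1 ht
      rw [g3] at j1
      rw [g4] at j2
      have k1 := j1.mono (show γ '' Icc 0 s ⊆ γ '' Icc 0 s ∪ seg (γ s) (γ t) ∪ γ '' Icc t 1 from
        fun z hz => Or.inl (Or.inl hz))
      have k2 := hj.mono (show seg (γ s) (γ t) ⊆ γ '' Icc 0 s ∪ seg (γ s) (γ t) ∪ γ '' Icc t 1 from
        fun z hz => Or.inl (Or.inr hz))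
      have k3 := j2.mono (show γ '' Icc t 1 ⊆ γ '' Icc 0 s ∪ seg (γ s) (γ t) ∪ γ '' Icc t 1 from
        fun z hz => Or.inr hz)
      exact (k1.trans k2).trans k3
    have hu01 : u ∈ Icc (0:ℝ) 1 := ⟨hs.trans hu.1, hu.2.trans ht⟩
    have h2 := seg_sub_joined T h0 (by rw [hseg]; exact ⟨u, hu01, rfl⟩)
    rcases h2 with (⟨v, hv, he⟩ | h2) | ⟨v, hv, he⟩
    · have : v = u := g2 ⟨hv.1, by linarith [hv.2]⟩ hu01 he
      have h3 : u = s := by linarith [hv.2, hu.1]
      rw [h3]
      exact hj.source_mem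
    · exact h2
    · have : v = u := g2 ⟨by linarith [hv.1], hv.2⟩ hu01 he
      have h3 : u = t := by linarith [hv.1, hu.2]
      rw [h3]
      exact hj.target_mem

theorem left_mem (x y : X) : x ∈ seg x y := Or.inl rfl

theorem seg_pc (T : Tr X C) (x y : X) : IsPathConnected (seg x y) := by
  obtain ⟨γ, g1, g2, g3, g4, -⟩ := seg_param T x y
  have := g4 0 1 le_rfl zero_le_one le_rfl
  rw [g2, g3] at this
  rw [this]
  exact ((convex_Icc (0:ℝ) 1).isPathConnected ⟨0, by simp⟩).image g1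

theorem seg_compact (T : Tr X C) (x y : X) : IsCompact (seg x y) := by
  obtain ⟨γ, g1, g2, g3, g4, -⟩ := seg_param T x y
  have := g4 0 1 le_rfl zero_le_one le_rfl
  rw [g2, g3] at this
  rw [this]
  exact isCompact_Icc.image g1

theorem right_mem (T : Tr X C) (x y : X) : y ∈ seg x y := by
  obtain ⟨γ, g1, g2, g3, g4, -⟩ := seg_param T x y
  have := g4 0 1 le_rfl zero_le_one le_rfl
  rw [g2, g3] at this
  rw [this]
  exact ⟨1, by simp, g3⟩

theorem seg_mono (T : Tr X C) {x y z w : X} (hz : z ∈ seg x y) (hw : w ∈ seg x y) :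
    seg z w ⊆ seg x y :=
  seg_sub_joined T ((seg_pc T x y).joinedIn z hz w hw)

theorem seg_comm (T : Tr X C) (x y : X) : seg x y = seg y x :=
  Subset.antisymm (seg_mono T (right_mem T y x) (left_mem y x))
    (seg_mono T (right_mem T x y) (left_mem x y))

theorem seg_union (T : Tr X C) (x w y : X) : seg x y ⊆ seg x w ∪ seg w y := by
  apply seg_sub_joined T
  have h1 := ((seg_pc T x w).joinedIn x (left_mem x w) w (right_mem T x w)).mono
    (show seg x w ⊆ seg x w ∪ seg w y from subset_union_left)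
  have h2 := ((seg_pc T w y).joinedIn w (left_mem w y) y (right_mem T w y)).mono
    (show seg w y ⊆ seg x w ∪ seg w y from subset_union_right)
  exact h1.trans h2

/-- order along a segment -/
theorem seg_total (T : Tr X C) {x y z w : X} (hz : z ∈ seg x y) (hw : w ∈ seg x y) :
    z ∈ seg x w ∨ w ∈ seg x z := by
  obtain ⟨γ, g1, g2, g3, g4, -⟩ := seg_param T x y
  have h1 := g4 0 1 le_rfl zero_le_one le_rfl
  rw [g2, g3] at h1
  rw [h1] at hz hw
  obtain ⟨s, hs, rfl⟩ := hz
  obtain ⟨t, ht, rfl⟩ := hw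
  rcases le_total s t with h | h
  · left
    have h2 := g4 0 t le_rfl ht.1 ht.2
    rw [g2] at h2
    rw [h2]
    exact ⟨s, ⟨hs.1, h⟩, rfl⟩
  · right
    have h2 := g4 0 s le_rfl hs.1 hs.2
    rw [g2] at h2
    rw [h2]
    exact ⟨t, ⟨ht.1, h⟩, rfl⟩

/-- `a` between `p` and `x`, `b` between `a` and `x`: then `a` is between `p` and `b` -/
theorem seg_btw (T : Tr X C) {p x a b : X} (ha : a ∈ seg p x) (hb : b ∈ seg a x) :
    a ∈ seg p b := by
  obtain ⟨γ, g1, g2, g3, g4, -⟩ := seg_param T p x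
  have h1 := g4 0 1 le_rfl zero_le_one le_rfl
  rw [g2, g3] at h1
  rw [h1] at ha
  obtain ⟨s, hs, rfl⟩ := ha
  have h2 := g4 s 1 hs.1 hs.2 le_rfl
  rw [g3] at h2
  rw [h2] at hb
  obtain ⟨t, ht, rfl⟩ := hb
  have h3 := g4 0 t le_rfl (hs.1.trans ht.1) ht.2
  rw [g2] at h3
  rw [h3]
  exact ⟨s, ⟨hs.1, ht.1⟩, rfl⟩

/-- `p` between `r` and `y`, `y` between `r` and `x`: then `y` is between `p` and `x` -/
theorem seg_mid (T : Tr X C) {r p x y : X} (hp : p ∈ seg r y) (hy : y ∈ seg r x) :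
    y ∈ seg p x := by
  obtain ⟨γ, g1, g2, g3, g4, -⟩ := seg_param T r x
  have h1 := g4 0 1 le_rfl zero_le_one le_rfl
  rw [g2, g3] at h1
  rw [h1] at hy
  obtain ⟨t, ht, rfl⟩ := hy
  have h2 := g4 0 t le_rfl ht.1 ht.2
  rw [g2] at h2
  rw [h2] at hp
  obtain ⟨s, hs, rfl⟩ := hp
  have h3 := g4 s 1 hs.1 (hs.2.trans ht.2) le_rfl
  rw [g3] at h3
  rw [h3]
  exact ⟨t, ⟨hs.2, ht.2⟩, rfl⟩

/-- meet of two points with respect to the root `r` -/
theorem meet (T : Tr X C) (r x y : X) : ∃ m, m ∈ seg r x ∧ m ∈ seg r y ∧ m ∈ seg x y := by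
  by_cases hrx : r = x
  · subst hrx
    exact ⟨r, left_mem _ _, left_mem _ _, left_mem _ _⟩
  obtain ⟨γ, g1, g2, g3, g4, g5⟩ := seg_param T r x
  have hinj := g5 hrx
  have h1 := g4 0 1 le_rfl zero_le_one le_rfl
  rw [g2, g3] at h1
  have hK : IsCompact (Icc (0:ℝ) 1 ∩ γ ⁻¹' (seg r y)) :=
    isCompact_Icc.inter_right ((seg_compact T r y).isClosed.preimage g1)
  obtain ⟨t, ⟨ht, htm⟩, hmax⟩ := hK.exists_isGreatest ⟨0, by simp, by
    show γ 0 ∈ seg r y; rw [g2]; exact left_mem r y⟩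
  refine ⟨γ t, by rw [h1]; exact ⟨t, ht, rfl⟩, htm, ?_⟩
  rcases eq_or_lt_of_le ht.2 with h2 | h2
  · rw [h2, g3]; exact left_mem _ _
  · have hsub : γ '' Ioc t 1 ⊆ seg x y := by
      rintro z ⟨u, hu, rfl⟩
      have hu01 : u ∈ Icc (0:ℝ) 1 := ⟨ht.1.trans hu.1.le, hu.2⟩
      have h3 : γ u ∈ seg r x := by rw [h1]; exact ⟨u, hu01, rfl⟩
      rcases seg_union T r y x h3 with h4 | h4
      · exact absurd (hmax ⟨hu01, h4⟩) (not_le.mpr hu.1)
      · rw [seg_comm T x y]; exact h4
    have hcl : γ t ∈ closure (γ '' Ioc t 1) := by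
      have h3 : t ∈ closure (Ioc t 1) := by
        rw [closure_Ioc h2.ne]
        exact left_mem_Icc.mpr h2.le
      exact image_closure_subset_closure_image g1 ⟨t, h3, rfl⟩
    exact closure_minimal hsub (seg_compact T x y).isClosed hcl

/-- diameter of a segment -/
noncomputable def R (x y : X) : ℝ := diam (seg x y)

theorem R_self (x : X) : R x x = 0 := by rw [R, seg_self]; exact diam_singleton

theorem R_nonneg (x y : X) : 0 ≤ R x y := diam_nonneg

theorem R_comm (T : Tr X C) (x y : X) : R x y = R y x := by rw [R, R, seg_comm T]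

theorem R_mono (T : Tr X C) {x y z w : X} (hz : z ∈ seg x y) (hw : w ∈ seg x y) :
    R z w ≤ R x y := diam_mono (seg_mono T hz hw) (seg_compact T x y).isBounded

theorem R_tri (T : Tr X C) (x w y : X) : R x y ≤ R x w + R w y := by
  refine (diam_mono (seg_union T x w y)
    ((seg_compact T x w).union (seg_compact T w y)).isBounded).trans ?_
  exact diam_union' ⟨w, right_mem T x w, left_mem w y⟩

theorem dist_le_R (T : Tr X C) (x y : X) : dist x y ≤ R x y :=
  dist_le_diam_of_mem (seg_compact T x y).isBounded (left_mem x y) (right_mem T x y)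

theorem R_le (T : Tr X C) (x y : X) (hC : 0 ≤ C) : R x y ≤ C * dist x y := by
  obtain ⟨γ, hγ⟩ := T.bt x y
  have h1 : seg x y ⊆ range γ :=
    seg_sub_joined T ⟨γ, fun t => ⟨t, rfl⟩⟩
  have h2 : diam (range γ) ≤ C * dist x y := by
    apply diam_le_of_forall_dist_le (mul_nonneg hC dist_nonneg)
    rintro _ ⟨s, rfl⟩ _ ⟨t, rfl⟩
    exact hγ s t
  exact (diam_mono h1 (isCompact_range γ.continuous).isBounded).trans h2

end Pool.Agent.R467.LTT
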