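import Pool.Agent.R467.LT.Z2

set_option autoImplicit false

namespace Pool.Agent.R467.LT

/-- state of the zigzag process -/
structure St where
  X : ℝ
  T : ℕ → ℕ
  A : ℕ → ℝ
  D : ℕ → ℝ

open Classical in
/-- new directions, from the coarsest level downwards -/
noncomputable def dirs (tr : ℕ → Prop) (X' : ℝ) (A' e D : ℕ → ℝ) : ℕ → ℝ
  | 0 => D 0
  | l + 1 => if tr (l + 1) then
      (if dirs tr X' A' e D l * (X' - A' l) < e l / 2 then dirs tr X' A' e D l
        else - dirs tr X' A' e D l)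
      else D (l + 1)

open Classical in
noncomputable def step (e : ℕ → ℝ) (K : ℕ) (ρ : ℕ → ℕ → ℝ) (i : ℕ) (s : St) : St where
  X := s.X + s.D K * e K
  T := fun l => if e l ≤ ρ (s.T l) (i + 1) then i + 1 else s.T l
  A := fun l => if e l ≤ ρ (s.T l) (i + 1) then s.X + s.D K * e K else s.A l
  D := dirs (fun l => e l ≤ ρ (s.T l) (i + 1)) (s.X + s.D K * e K)
    (fun l => if e l ≤ ρ (s.T l) (i + 1) then s.X + s.D K * e K else s.A l) e s.D

noncomputable def run (e : ℕ → ℝ) (K : ℕ) (ρ : ℕ → ℕ → ℝ) : ℕ → St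
  | 0 => ⟨0, fun _ => 0, fun _ => 0, fun _ => 1⟩
  | i + 1 => step e K ρ i (run e K ρ i)

theorem run_A (e : ℕ → ℝ) (K : ℕ) (ρ : ℕ → ℕ → ℝ) (i l : ℕ) :
    (run e K ρ i).T l ≤ i ∧ (run e K ρ i).A l = (run e K ρ ((run e K ρ i).T l)).X := by
  induction i with
  | zero => exact ⟨le_rfl, rfl⟩
  | succ i ih =>
    by_cases h : e l ≤ ρ ((run e K ρ i).T l) (i + 1)
    · have h1 : (run e K ρ (i + 1)).T l = i + 1 := by
        simp only [run, step]; rw [if_pos h]
      have h2 : (run e K ρ (i + 1)).A l = (run e K ρ (i + 1)).X := by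
        simp only [run, step]; rw [if_pos h]
      exact ⟨h1.le, by rw [h2, h1]⟩
    · have h1 : (run e K ρ (i + 1)).T l = (run e K ρ i).T l := by
        simp only [run, step]; rw [if_neg h]
      have h2 : (run e K ρ (i + 1)).A l = (run e K ρ i).A l := by
        simp only [run, step]; rw [if_neg h]
      exact ⟨by rw [h1]; omega, by rw [h2, h1]; exact ih.2⟩

open Classical in
theorem run_D (e : ℕ → ℝ) (K : ℕ) (ρ : ℕ → ℕ → ℝ) (i l : ℕ) :
    (run e K ρ (i + 1)).D (l + 1) = if e (l + 1) ≤ ρ ((run e K ρ i).T (l + 1)) (i + 1) then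
      (if (run e K ρ (i + 1)).D l * ((run e K ρ (i + 1)).X - (run e K ρ (i + 1)).A l) < e l / 2
        then (run e K ρ (i + 1)).D l else - (run e K ρ (i + 1)).D l)
      else (run e K ρ i).D (l + 1) := by
  simp only [run, step, dirs]
  all_goals
    by_cases h : e (l + 1) ≤ ρ ((run e K ρ i).T (l + 1)) (i + 1)
    · rw [if_pos h, if_pos h]
      congr
    · rw [if_neg h, if_neg h]

theorem run_zig (e : ℕ → ℝ) (K : ℕ) (ρ : ℕ → ℕ → ℝ) :
    Zig e K ρ (fun i => (run e K ρ i).X) (fun l i => (run e K ρ i).T l)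
      (fun l i => (run e K ρ i).D l) where
  τ0 := fun _ => rfl
  τs := by
    intro l i
    by_cases h : e l ≤ ρ ((run e K ρ i).T l) (i + 1)
    · left
      refine ⟨h, ?_⟩
      simp only [run, step]; rw [if_pos h]
    · right
      refine ⟨not_le.mp h, ?_⟩
      simp only [run, step]; rw [if_neg h]
  D0 := fun _ => rfl
  Dsn := by
    intro l i h
    cases l with
    | zero => rfl
    | succ l =>
      have h1 : ¬ e (l + 1) ≤ ρ ((run e K ρ i).T (l + 1)) (i + 1) := by
        intro hc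
        apply h
        simp only [run, step]; rw [if_pos hc]
      show (run e K ρ (i + 1)).D (l + 1) = (run e K ρ i).D (l + 1)
      rw [run_D, if_neg h1]
  Dst := by
    intro l i h
    have hle := (run_A e K ρ i (l + 1)).1
    have h1 : e (l + 1) ≤ ρ ((run e K ρ i).T (l + 1)) (i + 1) := by
      by_contra hc
      have h2 : (run e K ρ (i + 1)).T (l + 1) = (run e K ρ i).T (l + 1) := by
        simp only [run, step]; rw [if_neg hc]
      omega
    have hA := (run_A e K ρ (i + 1) l).2
    have hD : (run e K ρ (i + 1)).D (l + 1) =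
        if (run e K ρ (i + 1)).D l * ((run e K ρ (i + 1)).X - (run e K ρ (i + 1)).A l) < e l / 2
        then (run e K ρ (i + 1)).D l else - (run e K ρ (i + 1)).D l := by
      rw [run_D, if_pos h1]
    rw [hA] at hD
    rw [hD]
    split_ifs with h3
    · exact Or.inl ⟨h3, rfl⟩
    · exact Or.inr ⟨not_lt.mp h3, rfl⟩
  Dt0 := by
    intro i
    induction i with
    | zero => rfl
    | succ i ih => exact ih
  X0 := rfl
  Xs := fun i => rfl

theorem run_congr (e : ℕ → ℝ) (K : ℕ) (ρ ρ' : ℕ → ℕ → ℝ) (n : ℕ)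
    (h : ∀ a b, a ≤ b → b ≤ n → ρ a b = ρ' a b) : ∀ i, i ≤ n → run e K ρ i = run e K ρ' i := by
  intro i
  induction i with
  | zero => intro _; rfl
  | succ i ih =>
    intro hi
    have h1 := ih (by omega)
    have h2 : ∀ l, ρ ((run e K ρ' i).T l) (i + 1) = ρ' ((run e K ρ' i).T l) (i + 1) :=
      fun l => h _ _ (by have := (run_A e K ρ' i l).1; omega) hi
    simp only [run, step]
    rw [h1]
    simp only [h2]

end Pool.Agent.R467.LT
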