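import Pool.Agent.R467.LT.G
import Pool.Agent.R467.LT.Z3

set_option autoImplicit false

namespace Pool.Agent.R467.LTT

open Pool.Agent.R467.LT

open Set Metric Filter Topology

variable {X : Type} [MetricSpace X] {C : ℝ}

/-- `z` is the first point after `p` on the way to `x` at which the diameter reaches `ε` -/
def IsNext (ε : ℝ) (p x z : X) : Prop :=
  z ∈ seg p x ∧ R p z = ε ∧ ∀ w ∈ seg p z, w ≠ z → R p w < ε

theorem next_unique (T : Tr X C) {ε : ℝ} {p x z z' : X} (h : IsNext ε p x z)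
    (h' : IsNext ε p x z') : z = z' := by
  by_contra hne
  rcases seg_total T h.1 h'.1 with h1 | h1
  · have := h'.2.2 z h1 hne
    rw [h.2.1] at this
    exact lt_irrefl _ this
  · have := h.2.2 z' h1 (Ne.symm hne)
    rw [h'.2.1] at this
    exact lt_irrefl _ this

theorem next_exists (T : Tr X C) (hC : 0 ≤ C) {ε : ℝ} (hε : 0 < ε) {p x : X}
    (h : ε ≤ R p x) : ∃ z, IsNext ε p x z := by
  obtain ⟨γ, g1, g2, g3, g4, -⟩ := seg_param T p x
  have h1 := g4 0 1 le_rfl zero_le_one le_rfl
  rw [g2, g3] at h1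
  have hsub : ∀ t, 0 ≤ t → t ≤ 1 → seg p (γ t) = γ '' Icc 0 t := by
    intro t h0 h2
    have := g4 0 t le_rfl h0 h2
    rw [g2] at this
    exact this
  have hcont : ContinuousOn (fun t => R p (γ t)) (Icc 0 1) := by
    have key : ∀ s ∈ Icc (0:ℝ) 1, ∀ t ∈ Icc (0:ℝ) 1,
        |R p (γ s) - R p (γ t)| ≤ C * dist (γ s) (γ t) := by
      intro s hs t ht
      have a1 := R_tri T p (γ t) (γ s)
      have a2 := R_tri T p (γ s) (γ t)
      have a3 := R_le T (γ s) (γ t) hC
      have a4 := R_le T (γ t) (γ s) hC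
      rw [dist_comm] at a4
      rw [abs_le]
      constructor <;> linarith
    intro t ht
    rw [ContinuousWithinAt, tendsto_iff_dist_tendsto_zero]
    have h2 : Tendsto (fun s => C * dist (γ s) (γ t)) (𝓝[Icc 0 1] t) (𝓝 0) := by
      have h3 : Tendsto (fun s => dist (γ s) (γ t)) (𝓝 t) (𝓝 0) := by
        have := (g1.dist (continuous_const (y := γ t))).tendsto t
        rwa [dist_self] at this
      have := (h3.const_mul C).mono_left (nhdsWithin_le_nhds (s := Icc 0 1) (a := t))
      rwa [mul_zero] at this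
    refine squeeze_zero' (Eventually.of_forall fun s => dist_nonneg) ?_ h2
    filter_upwards [self_mem_nhdsWithin] with s hs
    rw [Real.dist_eq]
    exact key s hs t ht
  have hK : IsCompact (Icc (0:ℝ) 1 ∩ (fun t => R p (γ t)) ⁻¹' (Ici ε)) := by
    have : IsClosed (Icc (0:ℝ) 1 ∩ (fun t => R p (γ t)) ⁻¹' (Ici ε)) :=
      hcont.preimage_isClosed_of_isClosed isClosed_Icc isClosed_Ici
    exact isCompact_Icc.of_isClosed_subset this inter_subset_left
  obtain ⟨t, ⟨ht, htm⟩, hmin⟩ := hK.exists_isLeast ⟨1, by simp, by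
    show ε ≤ R p (γ 1); rw [g3]; exact h⟩
  have htm' : ε ≤ R p (γ t) := htm
  have hlt : ∀ s ∈ Icc (0:ℝ) 1, s < t → R p (γ s) < ε := by
    intro s hs hst
    by_contra hc
    exact absurd (hmin ⟨hs, not_lt.mp hc⟩) (not_le.mpr hst)
  have ht0 : 0 < t := by
    rcases eq_or_lt_of_le ht.1 with h2 | h2
    · rw [← h2, g2, R_self] at htm'
      linarith
    · exact h2
  refine ⟨γ t, by rw [h1]; exact ⟨t, ht, rfl⟩, le_antisymm ?_ htm', ?_⟩
  · have h2 : ContinuousWithinAt (fun t => R p (γ t)) (Icc 0 1) t := hcont t ht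
    have h3 : Tendsto (fun t => R p (γ t)) (𝓝[Ico 0 t] t) (𝓝 (R p (γ t))) :=
      h2.mono_left (nhdsWithin_mono _ (fun s hs => ⟨hs.1, hs.2.le.trans ht.2⟩))
    have h4 : (𝓝[Ico 0 t] t).NeBot := by
      rw [← mem_closure_iff_nhdsWithin_neBot, closure_Ico ht0.ne]
      exact right_mem_Icc.mpr ht0.le
    refine le_of_tendsto h3 ?_
    filter_upwards [self_mem_nhdsWithin] with s hs
    exact (hlt s ⟨hs.1, hs.2.le.trans ht.2⟩ hs.2).le
  · intro w hw hne
    rw [hsub t ht.1 ht.2] at hw
    obtain ⟨s, hs, rfl⟩ := hw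
    have : s ≠ t := fun h => hne (by rw [h])
    exact hlt s ⟨hs.1, hs.2.trans ht.2⟩ (lt_of_le_of_ne hs.2 this)

open Classical in
/-- the sequence of marks on the way from `r` to `x` -/
noncomputable def mk (ε : ℝ) (r x : X) : ℕ → X
  | 0 => r
  | i + 1 => if h : ∃ z, IsNext ε (mk ε r x i) x z then h.choose else mk ε r x i

theorem mk_mem' (_T : Tr X C) (ε : ℝ) (r x : X) (i : ℕ) :
    mk ε r x (i + 1) ∈ seg (mk ε r x i) x := by
  rw [mk]
  split_ifs with h
  · exact h.choose_spec.1
  · exact left_mem _ _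

theorem mk_mem (T : Tr X C) (ε : ℝ) (r x : X) (i : ℕ) : mk ε r x i ∈ seg r x := by
  induction i with
  | zero => exact left_mem _ _
  | succ i ih => exact seg_mono T ih (right_mem T r x) (mk_mem' T ε r x i)

theorem mk_mem2 (T : Tr X C) (ε : ℝ) (r x : X) (i j : ℕ) (hij : i ≤ j) :
    mk ε r x j ∈ seg (mk ε r x i) x := by
  induction j, hij using Nat.le_induction with
  | base => exact left_mem _ _
  | succ j hij ih => exact seg_mono T ih (right_mem T _ x) (mk_mem' T ε r x j)

theorem mk_btw (T : Tr X C) (ε : ℝ) (r x : X) (i j k : ℕ) (hij : i ≤ j) (hjk : j ≤ k) :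
    mk ε r x j ∈ seg (mk ε r x i) (mk ε r x k) :=
  seg_btw T (mk_mem2 T ε r x i j hij) (mk_mem2 T ε r x j k hjk)

theorem mk_next (T : Tr X C) (hC : 0 ≤ C) {ε : ℝ} (hε : 0 < ε) (r x : X) (i : ℕ)
    (h : ε ≤ R (mk ε r x i) x) : IsNext ε (mk ε r x i) x (mk ε r x (i + 1)) := by
  have h1 := next_exists T hC hε h
  conv => arg 4; rw [mk]
  rw [dif_pos h1]
  exact h1.choose_spec

theorem mk_fin [CompactSpace X] (T : Tr X C) (hC : 0 < C) {ε : ℝ} (hε : 0 < ε) (r x : X) :
    ∃ i, R (mk ε r x i) x < ε := by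
  by_contra hc
  push Not at hc
  have hnext : ∀ i, R (mk ε r x i) (mk ε r x (i + 1)) = ε := fun i =>
    (mk_next T hC.le hε r x i (hc i)).2.1
  have hsep : ∀ i j, i < j → ε / C ≤ dist (mk ε r x i) (mk ε r x j) := by
    intro i j hij
    have h1 : ε ≤ R (mk ε r x i) (mk ε r x j) :=
      (hnext i).symm.le.trans
        (R_mono T (left_mem _ _) (mk_btw T ε r x i (i + 1) j (by omega) (by omega)))
    have h2 := R_le T (mk ε r x i) (mk ε r x j) hC.le
    rw [div_le_iff₀ hC]
    linarith
  obtain ⟨a, -, φ, hφ, hlim⟩ := isCompact_univ.tendsto_subseq (x := mk ε r x) (fun n => mem_univ _)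
  have hcau := hlim.cauchySeq
  rw [Metric.cauchySeq_iff'] at hcau
  obtain ⟨n, hn⟩ := hcau (ε / C) (div_pos hε hC)
  have h1 := hn (n + 1) (by omega)
  have h2 := hsep (φ n) (φ (n + 1)) (hφ (by omega))
  rw [dist_comm] at h1
  simp only [Function.comp] at h1
  linarith

section

variable [CompactSpace X] (T : Tr X C) (hC : 0 < C)

open Classical in
/-- index of the last mark before `x` -/
noncomputable def num (ε : ℝ) (r x : X) : ℕ :=
  if h : ∃ i, R (mk ε r x i) x < ε then Nat.find h else 0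

theorem num_spec (T : Tr X C) (hC : 0 < C) {ε : ℝ} (hε : 0 < ε) (r x : X) :
    R (mk ε r x (num ε r x)) x < ε ∧ ∀ i, i < num ε r x → ε ≤ R (mk ε r x i) x := by
  classical
  have h := mk_fin T hC hε r x
  rw [num, dif_pos h]
  exact ⟨Nat.find_spec h, fun i hi => not_lt.mp (Nat.find_min h hi)⟩

/-- agreement property -/
theorem mk_agree (T : Tr X C) (hC : 0 < C) {ε : ℝ} (hε : 0 < ε) (r x y : X)
    (hy : y ∈ seg r x) : ∀ i, i ≤ num ε r y → mk ε r y i = mk ε r x i := by
  intro i
  induction i with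
  | zero => intro _; rfl
  | succ i ih =>
    intro hi
    have h1 := ih (by omega)
    have h2 := (num_spec T hC hε r y).2 i (by omega)
    have h3 := mk_next T hC.le hε r y i h2
    have hp : mk ε r y i ∈ seg r y := mk_mem T ε r y i
    have hyx : y ∈ seg (mk ε r y i) x := seg_mid T hp hy
    have h4 : IsNext ε (mk ε r x i) x (mk ε r y (i + 1)) := by
      rw [← h1]
      exact ⟨seg_mono T (left_mem _ _) hyx h3.1, h3.2.1, h3.2.2⟩
    have h5 : ε ≤ R (mk ε r x i) x := by
      rw [← h1]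
      exact h2.trans (R_mono T (left_mem _ _) hyx)
    exact next_unique T h4 (mk_next T hC.le hε r x i h5)

theorem num_mono (T : Tr X C) (hC : 0 < C) {ε : ℝ} (hε : 0 < ε) (r x y : X)
    (hy : y ∈ seg r x) : num ε r y ≤ num ε r x := by
  by_contra hc
  push Not at hc
  have h1 := (num_spec T hC hε r y).2 _ hc
  have h2 := mk_agree T hC hε r x y hy (num ε r x) hc.le
  have h3 := (num_spec T hC hε r x).1
  have hp : mk ε r y (num ε r x) ∈ seg r y := mk_mem T ε r y _
  have hyx := seg_mid T hp hy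
  have h4 := R_mono T (left_mem _ _) hyx
  rw [h2] at h4 h1
  linarith

theorem num_mk (T : Tr X C) (hC : 0 < C) {ε : ℝ} (hε : 0 < ε) (r x : X) (a : ℕ)
    (ha : a ≤ num ε r x) : num ε r (mk ε r x a) = a := by
  have hm : mk ε r x a ∈ seg r x := mk_mem T ε r x a
  have hpre := mk_agree T hC hε r x _ hm
  have hsp := num_spec T hC hε r (mk ε r x a)
  rcases lt_trichotomy (num ε r (mk ε r x a)) a with h | h | h
  · exfalso
    set n' := num ε r (mk ε r x a) with hn'
    have h1 := hsp.1
    rw [hpre n' le_rfl] at h1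
    have h2 := (mk_next T hC.le hε r x n' ((num_spec T hC hε r x).2 n' (by omega))).2.1
    have h3 := R_mono T (left_mem _ _) (mk_btw T ε r x n' (n' + 1) a (by omega) (by omega))
    linarith
  · exact h
  · exfalso
    have h1 := hsp.2 a h
    rw [hpre a h.le, R_self] at h1
    linarith

/-- the array of distances between the marks of `x` -/
noncomputable def arr (ε : ℝ) (r x : X) (i j : ℕ) : ℝ := R (mk ε r x i) (mk ε r x j)

noncomputable def ee (E : ℝ) (l : ℕ) : ℝ := E / 100 ^ l

theorem arr_Arr (T : Tr X C) (hC : 0 < C) {E : ℝ} (hE : ∀ x y : X, R x y < E) (hE0 : 0 < E)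
    (K : ℕ) (r x : X) : Arr (ee E) K (arr (ee E K) r x) (num (ee E K) r x) := by
  have hpos : ∀ l, 0 < ee E l := fun l => by unfold ee; positivity
  refine ⟨?_, ?_, ?_, ?_, ?_, ?_, hpos, ?_⟩
  · intro i _; exact R_self _
  · intro i j k h1 h2 _
    exact R_mono T (mk_btw T _ r x i j k h1 h2) (right_mem T _ _)
  · intro i j k h1 h2 _
    exact R_mono T (left_mem _ _) (mk_btw T _ r x i j k h1 h2)
  · intro i j k _ _ _
    exact R_tri T _ _ _
  · intro i hi
    exact (mk_next T hC.le (hpos K) r x i ((num_spec T hC (hpos K) r x).2 i hi)).2.1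
  · intro i j _ _
    have : ee E 0 = E := by unfold ee; simp
    rw [this]; exact hE _ _
  · intro l
    unfold ee
    rw [pow_succ]
    field_simp

/-- the approximating function -/
noncomputable def fK (E : ℝ) (r : X) (K : ℕ) (x : X) : ℝ :=
  (run (ee E) K (arr (ee E K) r x) (num (ee E K) r x)).X

theorem fK_agree (T : Tr X C) (hC : 0 < C) {E : ℝ} (hE0 : 0 < E) (K : ℕ) (r x y : X)
    (hy : y ∈ seg r x) :
    fK E r K y = (run (ee E) K (arr (ee E K) r x) (num (ee E K) r y)).X := by
  have hpos : 0 < ee E K := by unfold ee; positivity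
  unfold fK
  rw [run_congr (ee E) K (arr (ee E K) r y) (arr (ee E K) r x) (num (ee E K) r y) ?_ _ le_rfl]
  intro a b hab hb
  unfold arr
  rw [mk_agree T hC hpos r x y hy a (hab.trans hb), mk_agree T hC hpos r x y hy b hb]

theorem fK_bd (T : Tr X C) (hC : 0 < C) {E : ℝ} (hE : ∀ x y : X, R x y < E) (hE0 : 0 < E)
    (K : ℕ) (r x : X) : |fK E r K x| ≤ E := by
  have := zig_bd (run_zig (ee E) K (arr (ee E K) r x)) (arr_Arr T hC hE hE0 K r x)
    (num (ee E K) r x) le_rfl
  have h0 : ee E 0 = E := by unfold ee; simp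
  rw [h0] at this
  exact this

theorem fK_lip (T : Tr X C) (hC : 0 < C) {E : ℝ} (hE : ∀ x y : X, R x y < E) (hE0 : 0 < E)
    (K : ℕ) (r x y : X) (hy : y ∈ seg r x) :
    |fK E r K y - fK E r K x| ≤ 240 * (R y x + ee E K) := by
  have hpos : 0 < ee E K := by unfold ee; positivity
  rw [fK_agree T hC hE0 K r x y hy]
  have hn := num_mono T hC hpos r x y hy
  rcases Nat.eq_or_lt_of_le hn with h1 | h1
  · rw [h1]
    show |fK E r K x - fK E r K x| ≤ _
    rw [sub_self, abs_zero]
    have := R_nonneg y x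
    positivity
  · have h2 := zig_lip (run_zig (ee E) K (arr (ee E K) r x)) (arr_Arr T hC hE hE0 K r x) _ _ h1
      le_rfl
    refine h2.trans ?_
    have h3 : arr (ee E K) r x (num (ee E K) r y) (num (ee E K) r x) ≤ R y x + ee E K := by
      unfold arr
      have h4 := (num_spec T hC hpos r y).1
      have h5 := mk_agree T hC hpos r x y hy _ le_rfl
      have h6 : R (mk (ee E K) r x (num (ee E K) r y)) (mk (ee E K) r x (num (ee E K) r x)) ≤
          R (mk (ee E K) r x (num (ee E K) r y)) x :=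
        R_mono T (left_mem _ _) (mk_mem2 T _ r x _ _ hn)
      have h7 := R_tri T (mk (ee E K) r x (num (ee E K) r y)) y x
      rw [h5] at h4
      linarith
    linarith

theorem fK_osc (T : Tr X C) (hC : 0 < C) {E : ℝ} (hE : ∀ x y : X, R x y < E) (hE0 : 0 < E)
    (K l : ℕ) (hl : l ≤ K) (r x y : X) (hy : y ∈ seg r x) (h : 4 * ee E l ≤ R y x) :
    ∃ z ∈ seg y x, ∃ z' ∈ seg y x, (1/10) * ee E l ≤ |fK E r K z - fK E r K z'| := by
  have hpos : 0 < ee E K := by unfold ee; positivity
  have hA := arr_Arr T hC hE hE0 K r x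
  have hle := eK_le hA l hl
  have hn := num_mono T hC hpos r x y hy
  have h4 := (num_spec T hC hpos r y).1
  have h5 := mk_agree T hC hpos r x y hy _ le_rfl
  rw [h5] at h4
  have hyp : y ∈ seg (mk (ee E K) r x (num (ee E K) r y)) x := by
    rw [← h5]
    exact seg_mid T (mk_mem T _ r y _) hy
  have h6 : R y x ≤ R (mk (ee E K) r x (num (ee E K) r y)) x := R_mono T hyp (right_mem T _ _)
  have h7 := R_tri T (mk (ee E K) r x (num (ee E K) r y)) (mk (ee E K) r x (num (ee E K) r x)) x
  have h8 := (num_spec T hC hpos r x).1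
  obtain ⟨a, b, ha1, ha2, hb1, hb2, hab⟩ := zig_osc (run_zig (ee E) K (arr (ee E K) r x)) hA l
    (num (ee E K) r y) (num (ee E K) r x) hl hn le_rfl (by unfold arr; linarith)
  have key : ∀ a, num (ee E K) r y ≤ a → a ≤ num (ee E K) r x →
      ∃ z ∈ seg y x, fK E r K z = (run (ee E) K (arr (ee E K) r x) a).X := by
    intro a h1 h2
    rcases Nat.eq_or_lt_of_le h1 with h3 | h3
    · refine ⟨y, left_mem _ _, ?_⟩
      rw [fK_agree T hC hE0 K r x y hy, h3]
    · refine ⟨mk (ee E K) r x a, ?_, ?_⟩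
      · have hm := mk_mem T (ee E K) r x a
        rcases seg_total T hy hm with h9 | h9
        · exact seg_mid T h9 hm
        · exfalso
          have h10 : mk (ee E K) r x (num (ee E K) r y) ∈ seg r (mk (ee E K) r x a) :=
            mk_btw T (ee E K) r x 0 _ a (by omega) h1
          have h11 := seg_mid T h10 h9
          have h12 := R_mono T (left_mem _ _) h11
          have h13 := (mk_next T hC.le hpos r x (num (ee E K) r y)
            ((num_spec T hC hpos r x).2 _ (by omega))).2.1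
          have h14 := R_mono T (left_mem _ _) (mk_btw T (ee E K) r x (num (ee E K) r y)
            (num (ee E K) r y + 1) a (by omega) (by omega))
          linarith
      · rw [fK_agree T hC hE0 K r x _ (mk_mem T _ r x a), num_mk T hC hpos r x a h2]
  obtain ⟨z, hz, hz'⟩ := key a ha1 ha2
  obtain ⟨w, hw, hw'⟩ := key b hb1 hb2
  exact ⟨z, hz, w, hw, by rw [hz', hw']; exact hab⟩

end

end Pool.Agent.R467.LTT
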