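import Mathlib

set_option autoImplicit false

namespace Pool.Agent.R467.LT

/-- the relations satisfied by the zigzag process (levels `l`, times `i`) -/
structure Zig (e : ℕ → ℝ) (K : ℕ) (ρ : ℕ → ℕ → ℝ) (X : ℕ → ℝ) (τ : ℕ → ℕ → ℕ)
    (D : ℕ → ℕ → ℝ) : Prop where
  τ0 : ∀ l, τ l 0 = 0
  τs : ∀ l i, (e l ≤ ρ (τ l i) (i + 1) ∧ τ l (i + 1) = i + 1) ∨
    (ρ (τ l i) (i + 1) < e l ∧ τ l (i + 1) = τ l i)
  D0 : ∀ l, D l 0 = 1
  Dsn : ∀ l i, τ l (i + 1) ≠ i + 1 → D l (i + 1) = D l i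
  Dst : ∀ l i, τ (l + 1) (i + 1) = i + 1 →
    (D l (i + 1) * (X (i + 1) - X (τ l (i + 1))) < e l / 2 ∧ D (l + 1) (i + 1) = D l (i + 1)) ∨
    (e l / 2 ≤ D l (i + 1) * (X (i + 1) - X (τ l (i + 1))) ∧ D (l + 1) (i + 1) = - D l (i + 1))
  Dt0 : ∀ i, D 0 i = 1
  X0 : X 0 = 0
  Xs : ∀ i, X (i + 1) = X i + D K i * e K

/-- the axioms of the array of distances up to time `N` -/
structure Arr (e : ℕ → ℝ) (K : ℕ) (ρ : ℕ → ℕ → ℝ) (N : ℕ) : Prop where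
  refl : ∀ i, i ≤ N → ρ i i = 0
  monoL : ∀ i j k, i ≤ j → j ≤ k → k ≤ N → ρ j k ≤ ρ i k
  monoR : ∀ i j k, i ≤ j → j ≤ k → k ≤ N → ρ i j ≤ ρ i k
  tri : ∀ i j k, i ≤ j → j ≤ k → k ≤ N → ρ i k ≤ ρ i j + ρ j k
  stp : ∀ i, i < N → ρ i (i + 1) = e K
  bd : ∀ i j, i ≤ j → j ≤ N → ρ i j < e 0
  epos : ∀ l, 0 < e l
  es : ∀ l, e (l + 1) = e l / 100

variable {e : ℕ → ℝ} {K N : ℕ} {ρ : ℕ → ℕ → ℝ} {X : ℕ → ℝ} {τ : ℕ → ℕ → ℕ} {D : ℕ → ℕ → ℝ}

theorem Zig.τ_le (Z : Zig e K ρ X τ D) (l i : ℕ) : τ l i ≤ i := by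
  induction i with
  | zero => rw [Z.τ0]
  | succ i ih =>
    rcases Z.τs l i with ⟨_, h⟩ | ⟨_, h⟩ <;> omega

theorem Zig.τ_mid (Z : Zig e K ρ X τ D) (l i : ℕ) : ∀ j, τ l i ≤ j → j ≤ i → τ l j = τ l i := by
  induction i with
  | zero => intro j _ h; rw [Nat.le_zero.mp h]
  | succ i ih =>
    intro j h1 h2
    rcases Z.τs l i with ⟨_, h⟩ | ⟨_, h⟩
    · have : j = i + 1 := by omega
      rw [this]
    · rcases Nat.lt_or_ge i j with h3 | h3
      · have : j = i + 1 := by omega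
        rw [this]
      · rw [h]
        exact ih j (by omega) h3

theorem Zig.τ_idem (Z : Zig e K ρ X τ D) (l i : ℕ) : τ l (τ l i) = τ l i :=
  Z.τ_mid l i _ le_rfl (Z.τ_le l i)

/-- a mark `u ≤ i` is at most the last mark before `i` -/
theorem Zig.le_τ (Z : Zig e K ρ X τ D) (l i u : ℕ) (hu : τ l u = u) (h : u ≤ i) : u ≤ τ l i := by
  by_contra hc
  have := Z.τ_mid l i u (by omega) h
  omega

theorem Zig.D_mid (Z : Zig e K ρ X τ D) (l i : ℕ) : ∀ j, τ l i ≤ j → j ≤ i → D l j = D l i := by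
  induction i with
  | zero => intro j _ h; rw [Nat.le_zero.mp h]
  | succ i ih =>
    intro j h1 h2
    rcases Z.τs l i with ⟨_, h⟩ | ⟨_, h⟩
    · have : j = i + 1 := by omega
      rw [this]
    · have hle := Z.τ_le l i
      rcases Nat.lt_or_ge i j with h3 | h3
      · have : j = i + 1 := by omega
        rw [this]
      · rw [Z.Dsn l i (by omega)]
        exact ih j (by omega) h3

theorem Zig.D_pm (Z : Zig e K ρ X τ D) (l : ℕ) : ∀ i, D l i = 1 ∨ D l i = -1 := by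
  induction l with
  | zero => intro i; exact Or.inl (Z.Dt0 i)
  | succ l ihl =>
    intro i
    induction i with
    | zero => exact Or.inl (Z.D0 _)
    | succ i ih =>
      by_cases h : τ (l + 1) (i + 1) = i + 1
      · rcases Z.Dst l i h with ⟨_, h2⟩ | ⟨_, h2⟩ <;> rcases ihl (i + 1) with h3 | h3 <;>
          rw [h2, h3] <;> norm_num
      · rw [Z.Dsn _ _ h]; exact ih

theorem Zig.D_sq (Z : Zig e K ρ X τ D) (l i : ℕ) : D l i * D l i = 1 := by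
  rcases Z.D_pm l i with h | h <;> rw [h] <;> norm_num

/-- the rule at marks of level `l+1` -/
theorem Zig.rule (Z : Zig e K ρ X τ D) (he : ∀ l, 0 < e l) (l m : ℕ) (hm : τ (l + 1) m = m) :
    (D l m * (X m - X (τ l m)) < e l / 2 ∧ D (l + 1) m = D l m) ∨
    (e l / 2 ≤ D l m * (X m - X (τ l m)) ∧ D (l + 1) m = - D l m) := by
  cases m with
  | zero =>
    left
    rw [Z.τ0, Z.D0, Z.D0]
    have := he l
    exact ⟨by simp; exact this, rfl⟩
  | succ i => exact Z.Dst l i hm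

theorem ρ_τ (Z : Zig e K ρ X τ D) (H : Arr e K ρ N) (l i : ℕ) (hi : i ≤ N) : ρ (τ l i) i < e l := by
  cases i with
  | zero => rw [Z.τ0, H.refl 0 hi]; exact H.epos l
  | succ i =>
    rcases Z.τs l i with ⟨_, h⟩ | ⟨h1, h⟩
    · rw [h, H.refl _ hi]; exact H.epos l
    · rw [h]; exact h1

theorem τ_K (Z : Zig e K ρ X τ D) (H : Arr e K ρ N) (i : ℕ) (hi : i ≤ N) : τ K i = i := by
  induction i with
  | zero => exact Z.τ0 K
  | succ i ih =>
    rcases Z.τs K i with ⟨_, h⟩ | ⟨h1, h⟩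
    · exact h
    · rw [ih (by omega), H.stp i (by omega)] at h1
      exact absurd h1 (lt_irrefl _)

/-- `n'` is the mark of level `l` following the mark `n` -/
def Nx (τ : ℕ → ℕ → ℕ) (l n n' : ℕ) : Prop := ∃ k, n' = k + 1 ∧ τ l k = n ∧ τ l (k + 1) = k + 1

theorem Nx.ρ_ge (Z : Zig e K ρ X τ D) {l n n' : ℕ} (h : Nx τ l n n') : e l ≤ ρ n n' := by
  obtain ⟨k, rfl, h1, h2⟩ := h
  rcases Z.τs l k with ⟨h3, _⟩ | ⟨_, h4⟩
  · rw [← h1]; exact h3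
  · have := Z.τ_le l k; omega

/-- the next mark after time `q`, if there is a mark in `(q, v]` -/
theorem next_mark (Z : Zig e K ρ X τ D) (l q v : ℕ) (hqv : q < v) (hv : τ l v = v) :
    ∃ n', q < n' ∧ n' ≤ v ∧ Nx τ l (τ l q) n' := by
  classical
  have hex : ∃ n, q < n ∧ τ l n = n := ⟨v, hqv, hv⟩
  obtain ⟨h1, h2⟩ := Nat.find_spec hex
  set n' := Nat.find hex with hn'
  have hmin : ∀ m, q < m → m < n' → τ l m ≠ m := by
    intro m h3 h4 h5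
    exact Nat.find_min hex h4 ⟨h3, h5⟩
  refine ⟨n', h1, Nat.find_min' hex ⟨hqv, hv⟩, n' - 1, by omega, ?_, ?_⟩
  · have hk : ∀ j, q ≤ j → j < n' → τ l j = τ l q := by
      intro j
      induction j with
      | zero => intro h3 _; rw [Nat.le_zero.mp h3]
      | succ j ih =>
        intro h3 h4
        rcases Nat.lt_or_ge q (j + 1) with h5 | h5
        · rcases Z.τs l j with ⟨_, h⟩ | ⟨_, h⟩
          · exact absurd h (hmin _ h5 h4)
          · rw [h]; exact ih (by omega) (by omega)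
        · have : q = j + 1 := by omega
          rw [this]
    exact hk _ (by omega) (by omega)
  · have : n' - 1 + 1 = n' := by omega
    rw [this]; exact h2

/-- the first mark at or after `u`, if there is one in `[u, v]` -/
theorem first_mark (l u v : ℕ) (huv : u ≤ v) (hv : τ l v = v) :
    ∃ a, u ≤ a ∧ a ≤ v ∧ τ l a = a ∧ ∀ m, u ≤ m → m < a → τ l m ≠ m := by
  classical
  have hex : ∃ n, u ≤ n ∧ τ l n = n := ⟨v, huv, hv⟩
  obtain ⟨h1, h2⟩ := Nat.find_spec hex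
  exact ⟨Nat.find hex, h1, Nat.find_min' hex ⟨huv, hv⟩, h2,
    fun m h3 h4 h5 => Nat.find_min hex h4 ⟨h3, h5⟩⟩

def Bd (e : ℕ → ℝ) (N : ℕ) (X : ℕ → ℝ) (τ : ℕ → ℕ → ℕ) (D : ℕ → ℕ → ℝ) (l : ℕ) : Prop :=
  ∀ i, i ≤ N → -(1/10) * e l ≤ D l i * (X i - X (τ l i)) ∧ D l i * (X i - X (τ l i)) ≤ (3/5) * e l

def Pr (e : ℕ → ℝ) (N : ℕ) (X : ℕ → ℝ) (τ : ℕ → ℕ → ℕ) (D : ℕ → ℕ → ℝ) (l : ℕ) : Prop :=
  ∀ n n', n' ≤ N → Nx τ l n n' → (1/10) * e l ≤ D l n * (X n' - X n)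

def Wd (e : ℕ → ℝ) (N : ℕ) (ρ : ℕ → ℕ → ℝ) (X : ℕ → ℝ) (τ : ℕ → ℕ → ℕ) (D : ℕ → ℕ → ℝ)
    (l : ℕ) : Prop :=
  ∀ u v, u ≤ v → v ≤ N → ∀ σ : ℝ, (σ = 1 ∨ σ = -1) →
    (∀ n, u ≤ n → n < v → τ l n = n → D l n = σ) →
    (1/5) * ρ u v - (3/2) * e l ≤ σ * (X v - X u)

theorem Xstep (Z : Zig e K ρ X τ D) (he : ∀ l, 0 < e l) (i : ℕ) : |X (i + 1) - X i| ≤ e K := by
  rw [Z.Xs]
  have h := he K
  rcases Z.D_pm K i with h1 | h1 <;> rw [h1, abs_le] <;> constructor <;> linarith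

theorem eK_le (H : Arr e K ρ N) (l : ℕ) (hl : l ≤ K) : e K ≤ e l := by
  obtain ⟨d, rfl⟩ := Nat.exists_eq_add_of_le hl
  clear hl
  have : ∀ d, e (l + d) ≤ e l := by
    intro d
    induction d with
    | zero => exact le_rfl
    | succ d ih =>
      have h1 := H.es (l + d)
      have h2 := H.epos (l + d)
      have h3 : l + (d + 1) = l + d + 1 := by omega
      rw [h3, h1]
      linarith
  exact this d

/-- two times in the same interval of level `l` -/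
theorem same_int (Z : Zig e K ρ X τ D) {l : ℕ} (hB : Bd e N X τ D l) (i j : ℕ) (hi : i ≤ N)
    (hj : j ≤ i) (h : τ l i ≤ j) : |X i - X j| ≤ (7/10) * e l := by
  have h1 := Z.τ_mid l i j h hj
  have h2 := Z.D_mid l i j h hj
  have b1 := hB i hi
  have b2 := hB j (by omega)
  rw [h1, h2] at b2
  rcases Z.D_pm l i with h3 | h3 <;> rw [h3] at b1 b2 <;> rw [abs_le] <;> constructor <;>
    linarith [b1.1, b1.2, b2.1, b2.2]

end Pool.Agent.R467.LT
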