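import Pool.Agent.R467.LT.Z1

set_option autoImplicit false

namespace Pool.Agent.R467.LT

variable {e : ℕ → ℝ} {K N : ℕ} {ρ : ℕ → ℕ → ℝ} {X : ℕ → ℝ} {τ : ℕ → ℕ → ℕ} {D : ℕ → ℕ → ℝ}

/-- one complete interval of level `l+1`, from the mark `w` to the next mark `k+1` -/
theorem one_int (Z : Zig e K ρ X τ D) (H : Arr e K ρ N) {l : ℕ} (hl : l < K)
    (hB : Bd e N X τ D (l + 1)) (hP : Pr e N X τ D (l + 1)) (k w : ℕ) (hk : k + 1 ≤ N)
    (hw : τ (l + 1) k = w) (hm : τ (l + 1) (k + 1) = k + 1) (σ x : ℝ) (hσ : σ = 1 ∨ σ = -1)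
    (hD : D l w = σ) (hx : X (τ l w) = x) :
    (σ * (X w - x) < e l / 2 ∧ D (l + 1) w = σ ∧ σ * (X w - x) ≤ σ * (X (k + 1) - x) ∧
      σ * (X (k + 1) - x) ≤ σ * (X w - x) + (8/5) * e (l + 1) ∧
      σ * (X w - x) - (1/10) * e (l + 1) ≤ σ * (X k - x)) ∨
    (e l / 2 ≤ σ * (X w - x) ∧ D (l + 1) w = -σ ∧ σ * (X (k + 1) - x) ≤ σ * (X w - x) ∧
      σ * (X w - x) - (8/5) * e (l + 1) ≤ σ * (X (k + 1) - x) ∧
      σ * (X w - x) - (3/5) * e (l + 1) ≤ σ * (X k - x)) := by
  have hwk : w ≤ k := by rw [← hw]; exact Z.τ_le _ _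
  have hwm : τ (l + 1) w = w := by rw [← hw]; exact Z.τ_idem _ _
  have hp := hP w (k + 1) hk ⟨k, rfl, hw, hm⟩
  have hb := hB k (by omega)
  have hDk : D (l + 1) w = D (l + 1) k := Z.D_mid (l + 1) k w (by omega) hwk
  rw [hw, ← hDk] at hb
  have hs := abs_le.mp (Xstep Z H.epos k)
  have heK := eK_le H (l + 1) (by omega)
  have he' := H.epos (l + 1)
  have hr := Z.rule H.epos l w hwm
  rw [hD, hx] at hr
  rcases hr with ⟨h1, h2⟩ | ⟨h1, h2⟩
  · left
    rw [h2] at hp hb
    refine ⟨h1, h2, ?_, ?_, ?_⟩ <;> rcases hσ with h | h <;> rw [h] at hp hb ⊢ <;>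
      linarith [hb.1, hb.2, hs.1, hs.2]
  · right
    rw [h2] at hp hb
    refine ⟨h1, h2, ?_, ?_, ?_⟩ <;> rcases hσ with h | h <;> rw [h] at hp hb ⊢ <;>
      linarith [hb.1, hb.2, hs.1, hs.2]

theorem Bd_step (Z : Zig e K ρ X τ D) (H : Arr e K ρ N) {l : ℕ} (hl : l < K)
    (hB : Bd e N X τ D (l + 1)) (hP : Pr e N X τ D (l + 1)) : Bd e N X τ D l := by
  intro i hi
  have he' := H.epos (l + 1)
  have hes := H.es l
  have heK := eK_le H (l + 1) (by omega)
  set m := τ l i with hm
  set σ := D l i with hσd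
  have hσ : σ = 1 ∨ σ = -1 := Z.D_pm l i
  have hmi : m ≤ i := Z.τ_le l i
  have claim : ∀ n, m ≤ n → n ≤ i → τ (l + 1) n = n →
      -2 * e (l + 1) ≤ σ * (X n - X m) ∧ σ * (X n - X m) ≤ e l / 2 + 2 * e (l + 1) := by
    intro n
    induction n using Nat.strong_induction_on with
    | _ n ih =>
      intro h1 h2 h3
      rcases Nat.eq_or_lt_of_le h1 with h4 | h4
      · rw [← h4]
        constructor
        · linarith
        · linarith
      · obtain ⟨k, rfl⟩ : ∃ k, n = k + 1 := ⟨n - 1, by omega⟩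
        set w := τ (l + 1) k with hw
        have hwk : w ≤ k := Z.τ_le _ _
        have hs := abs_le.mp (Xstep Z H.epos k)
        rcases Nat.lt_or_ge w m with h5 | h5
        · have h6 := abs_le.mp (same_int Z hB k m (by omega) (by omega) (by omega))
          constructor <;> rcases hσ with h | h <;> rw [h] <;> linarith [h6.1, h6.2, hs.1, hs.2]
        · have h7 := ih w (by omega) h5 (by omega) (Z.τ_idem _ _)
          have h8 : D l w = σ := Z.D_mid l i w h5 (by omega)
          have h9 : τ l w = m := Z.τ_mid l i w h5 (by omega)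
          have h10 := one_int Z H hl hB hP k w (by omega) rfl h3 σ (X m) hσ h8 (by rw [h9])
          rcases h10 with ⟨a1, -, a2, a3, -⟩ | ⟨a1, -, a2, a3, -⟩
          · constructor <;> linarith [h7.1, h7.2]
          · constructor <;> linarith [h7.1, h7.2]
  have hb := hB i hi
  rcases Nat.lt_or_ge (τ (l + 1) i) m with h5 | h5
  · have h6 := abs_le.mp (same_int Z hB i m hi hmi (by omega))
    constructor <;> rcases hσ with h | h <;> rw [h] <;> linarith [h6.1, h6.2]
  · set w := τ (l + 1) i with hw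
    have hwi : w ≤ i := Z.τ_le _ _
    have h7 := claim w h5 hwi (Z.τ_idem _ _)
    have h8 : D l w = σ := Z.D_mid l i w h5 hwi
    have h9 : τ l w = m := Z.τ_mid l i w h5 hwi
    have h10 : D (l + 1) w = D (l + 1) i := Z.D_mid (l + 1) i w le_rfl hwi
    have hr := Z.rule H.epos l w (Z.τ_idem _ _)
    rw [h8, h9, h10] at hr
    rcases hr with ⟨a1, a2⟩ | ⟨a1, a2⟩
    · rw [a2] at hb
      constructor <;> rcases hσ with h | h <;> rw [h] at hb h7 a1 ⊢ <;>
        linarith [hb.1, hb.2, h7.1, h7.2]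
    · rw [a2] at hb
      constructor <;> rcases hσ with h | h <;> rw [h] at hb h7 a1 ⊢ <;>
        linarith [hb.1, hb.2, h7.1, h7.2]

/-- a saturated interval makes progress almost `e l / 2` -/
theorem Sat (Z : Zig e K ρ X τ D) (H : Arr e K ρ N) {l : ℕ} (hl : l < K)
    (hB : Bd e N X τ D (l + 1)) (hP : Pr e N X τ D (l + 1)) (n n' q : ℕ) (hn' : n' ≤ N)
    (hN : Nx τ l n n') (h1 : n ≤ q) (h2 : q < n') (hq : τ (l + 1) q = q)
    (hD : D (l + 1) q ≠ D l n) : e l / 2 - 4 * e (l + 1) ≤ D l n * (X n' - X n) := by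
  obtain ⟨k0, rfl, hk1, hk2⟩ := hN
  have he' := H.epos (l + 1)
  have hes := H.es l
  have heK := eK_le H (l + 1) (by omega)
  set σ := D l n with hσd
  have hσ : σ = 1 ∨ σ = -1 := Z.D_pm l n
  have hmid : ∀ j, n ≤ j → j ≤ k0 → τ l j = n ∧ D l j = σ := by
    intro j h3 h4
    refine ⟨by rw [← hk1]; exact Z.τ_mid l k0 j (by omega) h4, ?_⟩
    have := Z.D_mid l k0 j (by omega) h4
    have h5 := Z.D_mid l k0 n (by omega) (by omega)
    rw [this, ← h5]
  have hq' := Z.rule H.epos l q hq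
  rw [(hmid q h1 (by omega)).1, (hmid q h1 (by omega)).2] at hq'
  have hY : e l / 2 ≤ σ * (X q - X n) := by
    rcases hq' with ⟨_, a2⟩ | ⟨a1, _⟩
    · exact absurd a2 hD
    · exact a1
  have claim : ∀ r, q ≤ r → r ≤ k0 → τ (l + 1) r = r →
      e l / 2 - (8/5) * e (l + 1) ≤ σ * (X r - X n) := by
    intro r
    induction r using Nat.strong_induction_on with
    | _ r ih =>
      intro h3 h4 h5
      rcases Nat.eq_or_lt_of_le h3 with h6 | h6
      · rw [← h6]; linarith
      · obtain ⟨k, rfl⟩ : ∃ k, r = k + 1 := ⟨r - 1, by omega⟩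
        set w := τ (l + 1) k with hw
        have hwk : w ≤ k := Z.τ_le _ _
        have hqw : q ≤ w := Z.le_τ (l + 1) k q hq (by omega)
        have h7 := ih w (by omega) hqw (by omega) (Z.τ_idem _ _)
        have h8 := hmid w (by omega) (by omega)
        have h10 := one_int Z H hl hB hP k w (by omega) rfl h5 σ (X n) hσ h8.2 (by rw [h8.1])
        rcases h10 with ⟨a1, -, a2, a3, -⟩ | ⟨a1, -, a2, a3, -⟩ <;> linarith
  set w := τ (l + 1) k0 with hw
  have hwk : w ≤ k0 := Z.τ_le _ _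
  have hqw : q ≤ w := Z.le_τ (l + 1) k0 q hq (by omega)
  have h7 := claim w hqw hwk (Z.τ_idem _ _)
  have h8 := hmid w (by omega) hwk
  have hr := Z.rule H.epos l w (Z.τ_idem _ _)
  have h10 : D (l + 1) w = D (l + 1) k0 := Z.D_mid (l + 1) k0 w le_rfl hwk
  rw [h8.1, h8.2, h10] at hr
  have hb := hB k0 (by omega)
  have hs := abs_le.mp (Xstep Z H.epos k0)
  rcases hr with ⟨a1, a2⟩ | ⟨a1, a2⟩
  · rw [a2] at hb
    rcases hσ with h | h <;> rw [h] at hb h7 a1 ⊢ <;> linarith [hb.1, hb.2, hs.1, hs.2]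
  · rw [a2] at hb
    rcases hσ with h | h <;> rw [h] at hb h7 a1 ⊢ <;> linarith [hb.1, hb.2, hs.1, hs.2]

theorem Nx.ρ_le (Z : Zig e K ρ X τ D) (H : Arr e K ρ N) {l n n' : ℕ} (hn : n' ≤ N)
    (h : Nx τ l n n') : ρ n n' ≤ e l + e K := by
  obtain ⟨k, rfl, h1, h2⟩ := h
  have h3 := ρ_τ Z H l k (by omega)
  rw [h1] at h3
  have h4 := H.tri n k (k + 1) (by rw [← h1]; exact Z.τ_le _ _) (by omega) hn
  have h5 := H.stp k (by omega)
  linarith

theorem Chain (Z : Zig e K ρ X τ D) (H : Arr e K ρ N) {l : ℕ} (hl : l < K)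
    (hB : Bd e N X τ D (l + 1)) (hP : Pr e N X τ D (l + 1)) (hW : Wd e N ρ X τ D (l + 1))
    (σ : ℝ) (hσ : σ = 1 ∨ σ = -1) : ∀ (s u v : ℕ), v - u = s → u ≤ v → v ≤ N → τ l u = u →
    τ l v = v → (∀ n, u ≤ n → n < v → τ l n = n → D l n = σ) →
    (1/5) * ρ u v - (3/2) * e (l + 1) ≤ σ * (X v - X u) := by
  intro s
  induction s using Nat.strong_induction_on with
  | _ s ih =>
    intro u v hs huv hv hu hvm hD
    by_cases hall : ∀ q, u ≤ q → q < v → τ (l + 1) q = q → D (l + 1) q = σ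
    · exact hW u v huv hv σ hσ hall
    · push Not at hall
      obtain ⟨q, h1, h2, h3, h4⟩ := hall
      have hn1 : u ≤ τ l q := Z.le_τ l q u hu h1
      have hnq : τ l q ≤ q := Z.τ_le _ _
      have hDn : D l (τ l q) = σ := hD _ hn1 (by omega) (Z.τ_idem _ _)
      obtain ⟨n', h5, h6, h7⟩ := next_mark Z l q v h2 hvm
      have hs1 := Sat Z H hl hB hP (τ l q) n' q (by omega) h7 hnq h5 h3 (by rw [hDn]; exact h4)
      rw [hDn] at hs1
      have h8 := h7.ρ_le Z H (by omega)
      have hn'm : τ l n' = n' := by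
        obtain ⟨k, rfl, _, h9⟩ := h7
        exact h9
      have i1 := ih (τ l q - u) (by omega) u (τ l q) rfl hn1 (by omega) hu (Z.τ_idem _ _)
        (fun n a b c => hD n a (by omega) c)
      have i2 := ih (v - n') (by omega) n' v rfl h6 hv hn'm hvm
        (fun n a b c => hD n (by omega) b c)
      have t1 := H.tri u (τ l q) v hn1 (by omega) hv
      have t2 := H.tri (τ l q) n' v (by omega) h6 hv
      have heK := eK_le H (l + 1) (by omega)
      have he' := H.epos (l + 1)
      have hes := H.es l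
      have hsum : σ * (X v - X u) = σ * (X (τ l q) - X u) + σ * (X n' - X (τ l q))
        + σ * (X v - X n') := by ring
      rw [hsum]
      linarith

theorem ρ_nonneg (H : Arr e K ρ N) (i j : ℕ) (hij : i ≤ j) (hj : j ≤ N) : 0 ≤ ρ i j := by
  have := H.monoR i i j le_rfl hij hj
  rw [H.refl i (by omega)] at this
  exact this

theorem Wd_step (Z : Zig e K ρ X τ D) (H : Arr e K ρ N) {l : ℕ} (hl : l < K)
    (hB : Bd e N X τ D (l + 1)) (hP : Pr e N X τ D (l + 1)) (hW : Wd e N ρ X τ D (l + 1)) :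
    Wd e N ρ X τ D l := by
  intro u v huv hv σ hσ hD
  have hBl := Bd_step Z H hl hB hP
  have he' := H.epos (l + 1)
  have hes := H.es l
  have heK := eK_le H (l + 1) (by omega)
  set b := τ l v with hb
  have hbv : b ≤ v := Z.τ_le _ _
  have hbm : τ l b = b := Z.τ_idem _ _
  have hρb := ρ_τ Z H l v hv
  rcases Nat.lt_or_ge b u with h1 | h1
  · have h2 := abs_le.mp (same_int Z hBl v u hv huv (by omega))
    have h3 := H.monoL b u v (by omega) huv hv
    rcases hσ with h | h <;> rw [h] <;> linarith [h2.1, h2.2]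
  · obtain ⟨a, a1, a2, a3, a4⟩ := first_mark (τ := τ) l u b h1 hbm
    have hmid := Chain Z H hl hB hP hW σ hσ (b - a) a b rfl a2 (by omega) a3 hbm
      (fun n x y z => hD n (by omega) (by omega) z)
    have hlast : -(1/10) * e l ≤ σ * (X v - X b) := by
      rcases Nat.eq_or_lt_of_le hbv with h2 | h2
      · rw [h2]; simp; linarith
      · have h3 := hD b h1 h2 hbm
        have h4 := (hBl v hv).1
        have h5 := Z.D_mid l v b le_rfl hbv
        rw [← h5, h3] at h4
        exact h4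
    have hfirst : -(71/100) * e l ≤ σ * (X a - X u) ∧ ρ u a ≤ (101/100) * e l := by
      rcases Nat.eq_or_lt_of_le a1 with h2 | h2
      · rw [← h2, H.refl u (by omega), sub_self, mul_zero]
        have hel := H.epos l
        constructor <;> linarith
      · obtain ⟨k, rfl⟩ : ∃ k, a = k + 1 := ⟨a - 1, by omega⟩
        have hw : τ l k < u := by
          by_contra hc
          exact a4 (τ l k) (by omega) (by have := Z.τ_le l k; omega) (Z.τ_idem _ _)
        have h3 := abs_le.mp (same_int Z hBl k u (by omega) (by omega) (by omega))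
        have hs := abs_le.mp (Xstep Z H.epos k)
        have h4 := ρ_τ Z H l k (by omega)
        have h5 := H.monoL (τ l k) u k (by omega) (by omega) (by omega)
        have h6 := H.tri u k (k + 1) (by omega) (by omega) (by omega)
        have h7 := H.stp k (by omega)
        constructor
        · rcases hσ with h | h <;> rw [h] <;> linarith [h3.1, h3.2, hs.1, hs.2]
        · linarith
    have t1 := H.tri u a v a1 (by omega) hv
    have t2 := H.tri a b v a2 hbv hv
    have hsum : σ * (X v - X u) = σ * (X a - X u) + σ * (X b - X a) + σ * (X v - X b) := by ring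
    rw [hsum]
    linarith [hfirst.1, hfirst.2]

theorem Pr_step (Z : Zig e K ρ X τ D) (H : Arr e K ρ N) {l : ℕ} (hl : l < K)
    (hB : Bd e N X τ D (l + 1)) (hP : Pr e N X τ D (l + 1)) (hW : Wd e N ρ X τ D (l + 1)) :
    Pr e N X τ D l := by
  intro n n' hn' hN
  have he' := H.epos (l + 1)
  have hes := H.es l
  have hρ := Nx.ρ_ge Z hN
  have hlt : n < n' := by
    obtain ⟨k, rfl, h1, _⟩ := hN
    have := Z.τ_le l k
    omega
  by_cases hall : ∀ q, n ≤ q → q < n' → τ (l + 1) q = q → D (l + 1) q = D l n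
  · have := hW n n' (by omega) hn' (D l n) (Z.D_pm l n) hall
    linarith
  · push Not at hall
    obtain ⟨q, h1, h2, h3, h4⟩ := hall
    have := Sat Z H hl hB hP n n' q hn' hN h1 h2 h3 h4
    linarith

theorem base_Bd (Z : Zig e K ρ X τ D) (H : Arr e K ρ N) : Bd e N X τ D K := by
  intro i hi
  rw [τ_K Z H i hi]
  have := H.epos K
  constructor <;> simp <;> linarith

theorem base_Pr (Z : Zig e K ρ X τ D) (H : Arr e K ρ N) : Pr e N X τ D K := by
  intro n n' hn' hN
  obtain ⟨k, rfl, h1, h2⟩ := hN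
  rw [τ_K Z H k (by omega)] at h1
  subst h1
  rw [Z.Xs]
  have h3 := Z.D_sq K k
  have h4 := H.epos K
  have : D K k * (X k + D K k * e K - X k) = (D K k * D K k) * e K := by ring
  rw [this, h3]
  linarith

theorem base_Wd (Z : Zig e K ρ X τ D) (H : Arr e K ρ N) : Wd e N ρ X τ D K := by
  intro u v huv hv σ hσ hD
  have key : ∀ v, u ≤ v → v ≤ N → (∀ n, u ≤ n → n < v → τ K n = n → D K n = σ) →
      ρ u v ≤ σ * (X v - X u) := by
    intro v huv
    induction v, huv using Nat.le_induction with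
    | base => intro h _; rw [H.refl u h]; simp
    | succ v huv ih =>
      intro h1 h2
      have h3 := ih (by omega) (fun n a b c => h2 n a (by omega) c)
      have h4 := H.tri u v (v + 1) huv (by omega) h1
      have h5 := H.stp v (by omega)
      have h6 := h2 v huv (by omega) (τ_K Z H v (by omega))
      rw [Z.Xs, h6]
      have h7 : σ * σ = 1 := by rcases hσ with h | h <;> rw [h] <;> norm_num
      have h8 : σ * (X v + σ * e K - X u) = σ * (X v - X u) + (σ * σ) * e K := by ring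
      rw [h8, h7]
      linarith
  have h1 := key v huv hv hD
  have h2 := ρ_nonneg H u v huv hv
  have h3 := H.epos K
  linarith

theorem all_levels (Z : Zig e K ρ X τ D) (H : Arr e K ρ N) : ∀ d l, l + d = K →
    Bd e N X τ D l ∧ Pr e N X τ D l ∧ Wd e N ρ X τ D l := by
  intro d
  induction d with
  | zero =>
    intro l hl
    have : l = K := by omega
    subst this
    exact ⟨base_Bd Z H, base_Pr Z H, base_Wd Z H⟩
  | succ d ih =>
    intro l hl
    obtain ⟨h1, h2, h3⟩ := ih (l + 1) (by omega)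
    exact ⟨Bd_step Z H (by omega) h1 h2, Pr_step Z H (by omega) h1 h2 h3,
      Wd_step Z H (by omega) h1 h2 h3⟩

/-- Lipschitz bound -/
theorem zig_lip (Z : Zig e K ρ X τ D) (H : Arr e K ρ N) (i j : ℕ) (hij : i < j) (hj : j ≤ N) :
    |X i - X j| ≤ 240 * ρ i j := by
  classical
  have hge : e K ≤ ρ i j := by
    rw [← H.stp i (by omega)]
    exact H.monoR i (i + 1) j (by omega) (by omega) hj
  have hex : ∃ l, e l ≤ ρ i j := ⟨K, hge⟩
  have h1 := Nat.find_spec hex
  set l' := Nat.find hex with hl'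
  have hl'K : l' ≤ K := Nat.find_min' hex hge
  have h0 : l' ≠ 0 := by
    intro h
    rw [h] at h1
    have := H.bd i j hij.le hj
    linarith
  obtain ⟨l, hl⟩ : ∃ l, l' = l + 1 := ⟨l' - 1, by omega⟩
  have h2 : ρ i j < e l := by
    by_contra hc
    exact Nat.find_min hex (m := l) (by omega) (not_lt.mp hc)
  rw [hl] at h1
  have hes := H.es l
  obtain ⟨hB, -, -⟩ := all_levels Z H (K - l) l (by omega)
  have hel := H.epos l
  have heK := eK_le H l (by omega)
  suffices h : |X i - X j| ≤ (24/10) * e l by linarith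
  set b := τ l j with hb
  have hbj : b ≤ j := Z.τ_le _ _
  rcases Nat.lt_or_ge i b with h3 | h3
  · obtain ⟨k, hk⟩ : ∃ k, b = k + 1 := ⟨b - 1, by omega⟩
    have hbm : τ l b = b := Z.τ_idem _ _
    have hwi : τ l k ≤ i := by
      by_contra hc
      have hN : Nx τ l (τ l k) b := ⟨k, hk, rfl, by rw [← hk]; exact hbm⟩
      have h4 := Nx.ρ_ge Z hN
      have h5 := H.monoL i (τ l k) b (by omega) (by have := Z.τ_le l k; omega) (by omega)
      have h6 := H.monoR i b j (by omega) hbj hj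
      linarith
    have h4 := abs_le.mp (same_int Z hB k i (by omega) (by omega) hwi)
    have h5 := abs_le.mp (Xstep Z H.epos k)
    rw [← hk] at h5
    have h6 := abs_le.mp (same_int Z hB j b hj hbj le_rfl)
    rw [abs_le]
    constructor <;> linarith [h4.1, h4.2, h5.1, h5.2, h6.1, h6.2]
  · have h4 := abs_le.mp (same_int Z hB j i hj hij.le h3)
    rw [abs_le]
    constructor <;> linarith [h4.1, h4.2]

/-- lower bound for the oscillation -/
theorem zig_osc (Z : Zig e K ρ X τ D) (H : Arr e K ρ N) (l i j : ℕ) (hl : l ≤ K) (hij : i ≤ j)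
    (hj : j ≤ N) (h : 3 * e l ≤ ρ i j) :
    ∃ a b, i ≤ a ∧ a ≤ j ∧ i ≤ b ∧ b ≤ j ∧ (1/10) * e l ≤ |X a - X b| := by
  obtain ⟨hB, hP, -⟩ := all_levels Z H (K - l) l (by omega)
  have hel := H.epos l
  have heK := eK_le H l hl
  have hbi : i ≤ τ l j := by
    by_contra hc
    have h1 := ρ_τ Z H l j hj
    have h2 := H.monoL (τ l j) i j (by omega) hij hj
    linarith
  obtain ⟨a, a1, a2, a3, a4⟩ := first_mark (τ := τ) l i (τ l j) hbi (Z.τ_idem _ _)
  have hbj := Z.τ_le l j
  have hfirst : ρ i a ≤ 2 * e l := by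
    rcases Nat.eq_or_lt_of_le a1 with h2 | h2
    · rw [← h2, H.refl i (by omega)]; linarith
    · obtain ⟨k, rfl⟩ : ∃ k, a = k + 1 := ⟨a - 1, by omega⟩
      have hw : τ l k < i := by
        by_contra hc
        exact a4 (τ l k) (by omega) (by have := Z.τ_le l k; omega) (Z.τ_idem _ _)
      have h4 := ρ_τ Z H l k (by omega)
      have h5 := H.monoL (τ l k) i k (by omega) (by omega) (by omega)
      have h6 := H.tri i k (k + 1) (by omega) (by omega) (by omega)
      have h7 := H.stp k (by omega)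
      linarith
  have hlt : a < τ l j := by
    by_contra hc
    have h1 : a = τ l j := by omega
    have h2 := ρ_τ Z H l j hj
    rw [← h1] at h2
    have h3 := H.tri i a j a1 (by omega) hj
    linarith
  obtain ⟨n', h5, h6, h7⟩ := next_mark Z l a (τ l j) hlt (Z.τ_idem _ _)
  rw [a3] at h7
  have h8 := hP a n' (by omega) h7
  refine ⟨n', a, by omega, by omega, a1, by omega, le_trans h8 ?_⟩
  rcases Z.D_pm l a with h9 | h9 <;> rw [h9]
  · rw [one_mul]; exact le_abs_self _
  · have := neg_le_abs (X n' - X a); linarith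

theorem zig_bd (Z : Zig e K ρ X τ D) (H : Arr e K ρ N) (i : ℕ) (hi : i ≤ N) :
    |X i| ≤ e 0 := by
  obtain ⟨hB, -, -⟩ := all_levels Z H K 0 (by omega)
  have h0 : τ 0 i = 0 := by
    by_contra hc
    have h1 : τ 0 (τ 0 i) = τ 0 i := Z.τ_idem _ _
    obtain ⟨n', h5, h6, h7⟩ := next_mark Z 0 0 (τ 0 i) (by omega) h1
    rw [Z.τ0] at h7
    have h2 := Nx.ρ_ge Z h7
    have h3 := Z.τ_le 0 i
    have h4 := H.bd 0 n' (by omega) (by omega)
    linarith
  have h1 := abs_le.mp (same_int Z hB i 0 hi (by omega) (by omega))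
  rw [Z.X0] at h1
  have := H.epos 0
  rw [abs_le]
  constructor <;> linarith [h1.1, h1.2]

end Pool.Agent.R467.LT
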